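import Pool.Agent.Work.MP_2a6590_nt.H97B.Tools

set_option autoImplicit false

/-! Few atypical sets. -/

namespace Pool.Agent.Work.MP_2a6590_nt.H97B

open Finset Pool.Agent.Work.MP_2a6590_nt.H97

namespace JAtyp

open Classical in
theorem count {ι : Type} [Fintype ι] [DecidableEq ι] (V : ι → Finset ι) (s : ℕ)
    (J : Finset ι) (hc : ∀ i ∈ J, (V i).card ≤ s)
    (hd : ∀ i ∈ J, ∀ j ∈ J, i ≠ j → Disjoint (V i) (V j)) :
    ((univ.filter fun S : Finset ι => ∀ i ∈ J, ¬ V i ⊆ S).card : ℝ) ≤
      (1 - 1 / 2 ^ s) ^ J.card * 2 ^ Fintype.card ι := by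
  induction J using Finset.induction_on with
  | empty => simp
  | insert i0 J hi0 ih =>
    have ih' := ih (fun i hi => hc i (mem_insert_of_mem hi))
      (fun i hi j hj => hd i (mem_insert_of_mem hi) j (mem_insert_of_mem hj))
    set F := univ.filter fun S : Finset ι => ∀ i ∈ J, ¬ V i ⊆ S with hF
    set F' := F.filter fun S => V i0 ⊆ S with hF'
    have hnew : (univ.filter fun S : Finset ι => ∀ i ∈ insert i0 J, ¬ V i ⊆ S) =
        F.filter fun S => ¬ V i0 ⊆ S := by
      ext S
      simp only [hF, mem_filter, mem_univ, true_and, mem_insert, forall_eq_or_imp]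
      tauto
    have hsum : F'.card + (F.filter fun S => ¬ V i0 ⊆ S).card = F.card :=
      Finset.card_filter_add_card_filter_not _
    have himg : F.image (fun S => S ∪ V i0) ⊆ F' := by
      intro A hA
      obtain ⟨S, hS, rfl⟩ := mem_image.1 hA
      rw [hF, mem_filter] at hS
      rw [hF', mem_filter, hF, mem_filter]
      refine ⟨⟨mem_univ _, fun i hi hsub => ?_⟩, subset_union_right⟩
      apply hS.2 i hi
      intro x hx
      rcases mem_union.1 (hsub hx) with h | h
      · exact h
      · have hne : i ≠ i0 := fun e => hi0 (e ▸ hi)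
        exact absurd h (Finset.disjoint_left.1
          (hd i (mem_insert_of_mem hi) i0 (mem_insert_self _ _) hne) hx)
    have hfib : F.card ≤ 2 ^ s * F'.card := by
      refine le_trans (Finset.card_le_mul_card_image (f := fun S => S ∪ V i0) F (2 ^ s) ?_)
        (Nat.mul_le_mul_left _ (card_le_card himg))
      intro A _
      have h1 : (F.filter fun S => S ∪ V i0 = A).card ≤ (V i0).powerset.card := by
        refine Finset.card_le_card_of_injOn (fun S => S ∩ V i0) ?_ ?_
        · intro S _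
          exact Finset.mem_coe.2 (mem_powerset.2 inter_subset_right)
        · intro S hS T hT hST
          have hS' := (mem_filter.1 (Finset.mem_coe.1 hS)).2
          have hT' := (mem_filter.1 (Finset.mem_coe.1 hT)).2
          have hU : S ∪ V i0 = T ∪ V i0 := hS'.trans hT'.symm
          simp only at hST
          ext x
          have e1 : x ∈ S ∪ V i0 ↔ x ∈ T ∪ V i0 := by rw [hU]
          have e2 : x ∈ S ∩ V i0 ↔ x ∈ T ∩ V i0 := by rw [hST]
          rw [mem_union, mem_union] at e1
          rw [mem_inter, mem_inter] at e2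
          tauto
      refine h1.trans ?_
      rw [card_powerset]
      exact Nat.pow_le_pow_right (by norm_num) (hc i0 (mem_insert_self _ _))
    rw [hnew, card_insert_of_notMem hi0]
    have h2s : (0 : ℝ) < 2 ^ s := by positivity
    have hfib' : (F.card : ℝ) ≤ 2 ^ s * (F'.card : ℝ) := by exact_mod_cast hfib
    have hsum' : (F'.card : ℝ) + ((F.filter fun S => ¬ V i0 ⊆ S).card : ℝ) = (F.card : ℝ) := by
      exact_mod_cast hsum
    have h3 : (F.card : ℝ) / 2 ^ s ≤ (F'.card : ℝ) := by
      rw [div_le_iff₀ h2s]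
      linarith
    have h4 : ((F.filter fun S => ¬ V i0 ⊆ S).card : ℝ) ≤ (1 - 1 / 2 ^ s) * (F.card : ℝ) := by
      have : (1 - 1 / 2 ^ s) * (F.card : ℝ) = (F.card : ℝ) - (F.card : ℝ) / 2 ^ s := by ring
      linarith
    have h5 : (0 : ℝ) ≤ 1 - 1 / 2 ^ s := by
      have : (1 : ℝ) / 2 ^ s ≤ 1 := by
        rw [div_le_one h2s]
        exact one_le_pow₀ (by norm_num)
      linarith
    calc _ ≤ (1 - 1 / 2 ^ s) * (F.card : ℝ) := h4
      _ ≤ (1 - 1 / 2 ^ s) * ((1 - 1 / 2 ^ s) ^ J.card * 2 ^ Fintype.card ι) :=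
          mul_le_mul_of_nonneg_left ih' h5
      _ = _ := by rw [pow_succ]; ring

end JAtyp

open JAtyp Classical in
theorem prfAtyp : S_atyp := by
  intro s η hη
  set y : ℝ := 1 - 1 / 2 ^ s with hy
  have h2s : (0 : ℝ) < 2 ^ s := by positivity
  have hy1 : y < 1 := by
    have : (0 : ℝ) < 1 / 2 ^ s := by positivity
    linarith
  have hy0 : 0 ≤ y := by
    have : (1 : ℝ) / 2 ^ s ≤ 1 := by
      rw [div_le_one h2s]
      exact one_le_pow₀ (by norm_num)
    linarith
  obtain ⟨m, hm⟩ := exists_pow_lt_of_lt_one (show 0 < η / 2 by linarith) hy1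
  refine ⟨m + 1, ?_⟩
  intro ι _ _ I V b hL hI
  set J := I.erase b with hJ
  have hJc : m ≤ J.card := by
    have : I.card - 1 ≤ J.card := by
      rw [hJ]
      exact Finset.pred_card_le_card_erase
    omega
  have hc : ∀ i ∈ J, (V i).card ≤ s := fun i hi => hL.card i (mem_of_mem_erase hi)
  have hd : ∀ i ∈ J, ∀ j ∈ J, i ≠ j → Disjoint (V i) (V j) := fun i hi j hj =>
    hL.disj i (mem_of_mem_erase hi) j (mem_of_mem_erase hj)
  have h1 := count V s J hc hd
  have h2 : (univ.filter fun S : Finset ι => ∀ i ∈ J, ¬ Disjoint (V i) S).card ≤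
      (univ.filter fun S : Finset ι => ∀ i ∈ J, ¬ V i ⊆ S).card := by
    refine Finset.card_le_card_of_injOn (fun S => Sᶜ) ?_ ?_
    · intro S hS
      have hS' := (mem_filter.1 (Finset.mem_coe.1 hS)).2
      refine Finset.mem_coe.2 (mem_filter.2 ⟨mem_univ _, fun i hi hsub => hS' i hi ?_⟩)
      rw [Finset.disjoint_left]
      intro x hx hxS
      exact (mem_compl.1 (hsub hx)) hxS
    · intro S _ T _ hST
      exact compl_injective hST
  have h3 : (univ.filter fun S : Finset ι => ¬ Typ I V b S) ⊆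
      (univ.filter fun S : Finset ι => ∀ i ∈ J, ¬ V i ⊆ S) ∪
      (univ.filter fun S : Finset ι => ∀ i ∈ J, ¬ Disjoint (V i) S) := by
    intro S hS
    have hS' := (mem_filter.1 hS).2
    unfold Typ at hS'
    rw [not_and_or] at hS'
    rw [mem_union, mem_filter, mem_filter]
    rcases hS' with h | h
    · left
      refine ⟨mem_univ _, fun i hi hsub => h ⟨i, mem_of_mem_erase hi, ne_of_mem_erase hi, hsub⟩⟩
    · right
      refine ⟨mem_univ _, fun i hi hsub => h ⟨i, mem_of_mem_erase hi, ne_of_mem_erase hi, hsub⟩⟩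
  have h4 := (card_le_card h3).trans (card_union_le _ _)
  have h5 : ((univ.filter fun S : Finset ι => ¬ Typ I V b S).card : ℝ) ≤
      2 * ((univ.filter fun S : Finset ι => ∀ i ∈ J, ¬ V i ⊆ S).card : ℝ) := by
    have : (univ.filter fun S : Finset ι => ¬ Typ I V b S).card ≤
      2 * (univ.filter fun S : Finset ι => ∀ i ∈ J, ¬ V i ⊆ S).card := by omega
    exact_mod_cast this
  have h6 : y ^ J.card ≤ y ^ m := pow_le_pow_of_le_one hy0 hy1.le hJc
  have h7 : (0 : ℝ) < 2 ^ Fintype.card ι := by positivity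
  calc _ ≤ 2 * ((univ.filter fun S : Finset ι => ∀ i ∈ J, ¬ V i ⊆ S).card : ℝ) := h5
    _ ≤ 2 * (y ^ J.card * 2 ^ Fintype.card ι) := by linarith
    _ ≤ 2 * (η / 2 * 2 ^ Fintype.card ι) := by
        have : y ^ J.card * 2 ^ Fintype.card ι ≤ η / 2 * 2 ^ Fintype.card ι :=
          mul_le_mul_of_nonneg_right (by linarith) h7.le
        linarith
    _ = η * 2 ^ Fintype.card ι := by ring

end Pool.Agent.Work.MP_2a6590_nt.H97B
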