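import Pool.Agent.Work.MP_2a6590_nt.H97B.Tools

/-!
# MP_2a6590_nt, block B: the basic count
-/

namespace Pool.Agent.Work.MP_2a6590_nt.H97B

open Finset Pool.Agent.Work.MP_2a6590_nt.H97

namespace JCnt

variable {ι H : Type} [Fintype ι] [DecidableEq ι] [AddCommGroup H] {e : ι → H} {N : ℕ}

/-- Two comparable types give different values. -/
theorem ne_of_lt (hS : Sys e N) {I : Finset ι} {V : ι → Finset ι} {t t' : TyD ι H}
    (ht : IsTy e I V t) (ht' : IsTy e I V t') (hlt : TLt I t t') {i : ι} (hi : i ∈ I)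
    {S S' : Finset ι} (hV : V i ⊆ S') : t.c + sg e S ≠ t'.c + sg e S' := by
  intro h
  obtain ⟨hd, hnd⟩ := hlt i hi
  have h1 := ht.eq i hi
  have h2 := ht'.eq i hi
  have hsub : t.Ψ i ∪ t'.Φ i ⊆ S' :=
    (Finset.union_subset (ht.sΨ i hi) (ht'.sΦ i hi)).trans hV
  have h3 := sg_sdiff e hsub
  rw [sg_union e hd] at h3
  obtain ⟨x, hx1, hx2⟩ := Finset.not_disjoint_iff.mp hnd
  have h4 : val e (ind (t.Φ i) + ind (t'.Ψ i) + ind (S' \ (t.Ψ i ∪ t'.Φ i))) = sg e S := by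
    rw [val_add, val_add, val_ind, val_ind, val_ind]
    rw [h3] at h
    have h5 : sg e S = t'.c + (sg e (S' \ (t.Ψ i ∪ t'.Φ i)) + (sg e (t.Ψ i) + sg e (t'.Φ i)))
        - t.c := by rw [← h]; abel
    have h6 : t.c = 2 • e i + sg e (t.Ψ i) - sg e (t.Φ i) := by rw [h1]; abel
    have h7 : t'.c = 2 • e i + sg e (t'.Ψ i) - sg e (t'.Φ i) := by rw [h2]; abel
    rw [h5, h6, h7]
    abel
  have h5 := hS.le_one h4 x
  rw [Pi.add_apply, Pi.add_apply, ind_mem hx1, ind_mem hx2] at h5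
  omega

omit [Fintype ι] [DecidableEq ι] in
theorem typ_in {I : Finset ι} {V : ι → Finset ι} {b : ι} {S : Finset ι} (h : Typ I V b S) :
    ∃ i ∈ I, V i ⊆ S := by
  obtain ⟨⟨i, hi, _, hV⟩, _⟩ := h
  exact ⟨i, hi, hV⟩

/-- A representation with a repeated element. -/
theorem rep {I : Finset ι} {V : ι → Finset ι} {t : TyD ι H} (ht : IsTy e I V t) {i : ι}
    (hi : i ∈ I) {S : Finset ι} (hV : V i ⊆ S) :
    ∃ m : ι → ℕ, val e m = t.c + sg e S ∧ ∃ i, 2 ≤ m i := by
  refine ⟨un i + un i + ind (t.Ψ i) + ind (S \ t.Φ i), ?_, i, ?_⟩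
  · rw [val_add, val_add, val_add, val_un, val_ind, val_ind,
      sg_sdiff e ((ht.sΦ i hi).trans hV)]
    have h1 := ht.eq i hi
    have h2 : e i + e i = 2 • e i := (two_nsmul _).symm
    rw [h2, h1]
    abel
  · rw [Pi.add_apply, Pi.add_apply, Pi.add_apply, un_self]
    omega

end JCnt

theorem prfCnt : S_cnt := by
  intro ι H _ _ _ e N hS I V s hL r T hT hlt b hb F hF
  classical
  have hdis : ∀ j < r, ∀ j' < r, j ≠ j' → ∀ S ∈ F j, ∀ S' ∈ F j',
      (T j).c + sg e S ≠ (T j').c + sg e S' := by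
    intro j hj j' hj' hne S hSj S' hSj' h
    rcases hlt j hj j' hj' hne with h1 | h1
    · obtain ⟨i, hi, hV⟩ := JCnt.typ_in (hF j' hj' S' hSj').1
      exact JCnt.ne_of_lt hS (hT j hj) (hT j' hj') h1 hi hV h
    · obtain ⟨i, hi, hV⟩ := JCnt.typ_in (hF j hj S hSj).1
      exact JCnt.ne_of_lt hS (hT j' hj') (hT j hj) h1 hi hV h.symm
  set W : Finset H := (range r).biUnion fun j => (F j).image fun S => (T j).c + sg e S with hW
  have hWc : W.card = ∑ j ∈ range r, (F j).card := by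
    rw [hW, Finset.card_biUnion]
    · refine Finset.sum_congr rfl fun j _ => ?_
      refine Finset.card_image_of_injOn ?_
      intro S _ S' _ h
      exact hS.inj (add_left_cancel h)
    · intro j hj j' hj' hne
      refine Finset.disjoint_left.mpr ?_
      intro w hw hw'
      obtain ⟨S, hSj, rfl⟩ := Finset.mem_image.mp hw
      obtain ⟨S', hSj', h⟩ := Finset.mem_image.mp hw'
      have hj1 : j < r := by simpa using hj
      have hj2 : j' < r := by simpa using hj'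
      exact hdis j hj1 j' hj2 hne S hSj S' hSj' h.symm
  rw [← hWc]
  refine hS.base b W ?_
  intro w hw
  rw [hW, Finset.mem_biUnion] at hw
  obtain ⟨j, hj, hw⟩ := hw
  obtain ⟨S, hSj, rfl⟩ := Finset.mem_image.mp hw
  have hj' := Finset.mem_range.mp hj
  obtain ⟨h1, h2⟩ := hF j hj' S hSj
  obtain ⟨i, hi, hV⟩ := JCnt.typ_in h1
  exact ⟨JCnt.rep (hT j hj') hi hV, h2⟩

end Pool.Agent.Work.MP_2a6590_nt.H97B
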