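import Pool.Agent.Work.MP_2a6590_nt.H97B.Tools

/-!
# MP_2a6590_nt, block B: two types, and the two reasons for being new
-/

set_option autoImplicit false

namespace Pool.Agent.Work.MP_2a6590_nt.H97B

open Finset Pool.Agent.Work.MP_2a6590_nt.H97

namespace JConf

theorem ind_union {ι : Type} [Fintype ι] [DecidableEq ι] {S T : Finset ι} (h : Disjoint S T) (x : ι) :
    ind (S ∪ T) x = ind S x + ind T x := by
  by_cases hS : x ∈ S
  · have hT : x ∉ T := Finset.disjoint_left.mp h hS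
    rw [ind_mem (Finset.mem_union_left T hS), ind_mem hS, ind_notMem hT]
  · by_cases hT : x ∈ T
    · rw [ind_mem (Finset.mem_union_right S hT), ind_notMem hS, ind_mem hT]
    · rw [ind_notMem hS, ind_notMem hT, ind_notMem]
      rw [Finset.mem_union]
      tauto

theorem one_iff {ι : Type} [Fintype ι] [DecidableEq ι] {S : Finset ι} {x : ι} : 1 ≤ ind S x ↔ x ∈ S := by
  by_cases h : x ∈ S
  · rw [ind_mem h]; simp [h]
  · rw [ind_notMem h]; simp [h]

-- equality of the sets from equality of the indicator sums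
theorem eq_of {ι : Type} [Fintype ι] [DecidableEq ι] {F P F' P' : Finset ι} (hd : Disjoint F P)
    (hd' : Disjoint F' P') (h : ∀ x, ind P x + ind F' x = ind P' x + ind F x) :
    F = F' ∧ P = P' := by
  have hP : P = P' := by
    ext x
    constructor
    · intro hx
      have h1 : x ∉ F := Finset.disjoint_right.mp hd hx
      have h2 := h x
      rw [ind_mem hx, ind_notMem h1] at h2
      rw [← one_iff]
      omega
    · intro hx
      have h1 : x ∉ F' := Finset.disjoint_right.mp hd' hx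
      have h2 := h x
      rw [ind_mem hx, ind_notMem h1] at h2
      rw [← one_iff]
      omega
  refine ⟨?_, hP⟩
  ext x
  have h2 := h x
  rw [hP] at h2
  rw [← one_iff, ← one_iff (S := F')]
  omega

theorem key {ι H : Type} [Fintype ι] [DecidableEq ι] [AddCommGroup H] {e : ι → H}
    {N : ℕ} (hS : Sys e N) {I : Finset ι} {V : ι → Finset ι} {s : ℕ} (hL : Loc I V s)
    {t t' : TyD ι H} (h : IsTy e I V t) (h' : IsTy e I V t') {a b : ι} (ha : a ∈ I) (hb : b ∈ I)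
    (hab : a ≠ b) (hda : Disjoint (t.Ψ a) (t'.Φ a)) (hdb : Disjoint (t.Φ b) (t'.Ψ b)) :
    (t.Φ a = t'.Φ a ∧ t.Ψ a = t'.Ψ a) ∧ (t.Φ b = t'.Φ b ∧ t.Ψ b = t'.Ψ b) := by
  have hV : Disjoint (V a) (V b) := hL.disj a ha b hb hab
  -- the equation
  have e1 : sg e (t.Ψ b) + sg e (t'.Φ b) + sg e (t'.Ψ a) + sg e (t.Φ a) =
      sg e (t.Ψ a) + sg e (t'.Φ a) + (sg e (t.Φ b) + sg e (t'.Ψ b)) := by
    have q1 := h.eq a ha
    have q2 := h'.eq a ha
    have q3 := h.eq b hb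
    have q4 := h'.eq b hb
    have r1 : sg e (t.Ψ a) = t.c + sg e (t.Φ a) - 2 • e a := by rw [← q1]; abel
    have r2 : sg e (t'.Ψ a) = t'.c + sg e (t'.Φ a) - 2 • e a := by rw [← q2]; abel
    have r3 : sg e (t.Ψ b) = t.c + sg e (t.Φ b) - 2 • e b := by rw [← q3]; abel
    have r4 : sg e (t'.Ψ b) = t'.c + sg e (t'.Φ b) - 2 • e b := by rw [← q4]; abel
    rw [r1, r2, r3, r4]
    abel
  have hd1 : Disjoint (t.Ψ a ∪ t'.Φ a) (t.Φ b ∪ t'.Ψ b) := by
    refine Disjoint.mono ?_ ?_ hV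
    · exact Finset.union_subset (h.sΨ a ha) (h'.sΦ a ha)
    · exact Finset.union_subset (h.sΦ b hb) (h'.sΨ b hb)
  have e2 : val e (ind (t.Ψ b) + ind (t'.Φ b) + ind (t'.Ψ a) + ind (t.Φ a)) =
      sg e ((t.Ψ a ∪ t'.Φ a) ∪ (t.Φ b ∪ t'.Ψ b)) := by
    rw [val_add, val_add, val_add, val_ind, val_ind, val_ind, val_ind, sg_union e hd1,
      sg_union e hda, sg_union e hdb, e1]
  have e3 := hS.uq e2
  have e4 : ∀ x, ind (t.Ψ b) x + ind (t'.Φ b) x + ind (t'.Ψ a) x + ind (t.Φ a) x =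
      ind (t.Ψ a) x + ind (t'.Φ a) x + (ind (t.Φ b) x + ind (t'.Ψ b) x) := by
    intro x
    have := congrFun e3 x
    rw [ind_union hd1, ind_union hda, ind_union hdb] at this
    simpa only [Pi.add_apply] using this
  have za : ∀ x, x ∉ V a → ind (t.Ψ a) x = 0 ∧ ind (t.Φ a) x = 0 ∧ ind (t'.Ψ a) x = 0 ∧
      ind (t'.Φ a) x = 0 := fun x hx =>
    ⟨ind_notMem fun hc => hx (h.sΨ a ha hc), ind_notMem fun hc => hx (h.sΦ a ha hc),
      ind_notMem fun hc => hx (h'.sΨ a ha hc), ind_notMem fun hc => hx (h'.sΦ a ha hc)⟩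
  have zb : ∀ x, x ∉ V b → ind (t.Ψ b) x = 0 ∧ ind (t.Φ b) x = 0 ∧ ind (t'.Ψ b) x = 0 ∧
      ind (t'.Φ b) x = 0 := fun x hx =>
    ⟨ind_notMem fun hc => hx (h.sΨ b hb hc), ind_notMem fun hc => hx (h.sΦ b hb hc),
      ind_notMem fun hc => hx (h'.sΨ b hb hc), ind_notMem fun hc => hx (h'.sΦ b hb hc)⟩
  constructor
  · refine eq_of (h.dj a ha) (h'.dj a ha) fun x => ?_
    by_cases hx : x ∈ V a
    · have hx' : x ∉ V b := Finset.disjoint_left.mp hV hx
      obtain ⟨z1, z2, z3, z4⟩ := zb x hx'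
      have := e4 x
      omega
    · obtain ⟨z1, z2, z3, z4⟩ := za x hx
      omega
  · refine eq_of (h.dj b hb) (h'.dj b hb) fun x => ?_
    by_cases hx : x ∈ V b
    · have hx' : x ∉ V a := Finset.disjoint_right.mp hV hx
      obtain ⟨z1, z2, z3, z4⟩ := za x hx'
      have := e4 x
      omega
    · obtain ⟨z1, z2, z3, z4⟩ := zb x hx
      omega

end JConf

theorem prfConf : S_conf := by
  intro ι H _ _ _ e N hS I V s hL hI t t' h h' hd
  by_cases hc : ∀ a ∈ I, ¬ Disjoint (t.Φ a) (t'.Ψ a)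
  · exact Or.inr hc
  left
  push Not at hc
  obtain ⟨b, hb, hdb⟩ := hc
  intro a ha
  by_cases hab : a = b
  · subst hab
    obtain ⟨c, hcI, hca⟩ := Finset.exists_mem_ne (by omega : 1 < I.card) a
    exact (JConf.key hS hL h h' hcI hb hca (hd c hcI) hdb).2
  · exact (JConf.key hS hL h h' ha hb hab (hd a ha) hdb).1

theorem prfRegI : S_regI := by
  intro ι H _ _ _ e N hS I V t h b hb S hbS hdS hΦ
  rintro ⟨m, hm⟩
  have hq := h.eq b hb
  have hbn : b ∉ t.Ψ b ∪ S := by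
    rw [Finset.mem_union]
    rintro (h1 | h1)
    · exact h.nΨ b hb h1
    · exact hbS h1
  have e1 : val e (m + ind (t.Φ b)) = sg e (insert b (t.Ψ b ∪ S)) := by
    rw [val_add, val_ind, hm, sg_insert e hbn, sg_union e hdS]
    have r : sg e (t.Φ b) = 2 • e b + sg e (t.Ψ b) - t.c := by rw [hq]; abel
    rw [r, two_nsmul]
    abel
  rw [Finset.not_subset] at hΦ
  obtain ⟨x, hx, hxS⟩ := hΦ
  have h1 := hS.mem_of e1 (i := x) (by rw [Pi.add_apply, ind_mem hx]; omega)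
  rw [Finset.mem_insert, Finset.mem_union] at h1
  rcases h1 with h1 | h1 | h1
  · rw [h1] at hx
    exact h.nΦ b hb hx
  · exact Finset.disjoint_left.mp (h.dj b hb) hx h1
  · exact hxS h1

theorem prfRegII : S_regII := by
  intro ι H _ _ _ e N hS I V s hL t k ht hk hlt b hb S hbS hkS hkd hi
  obtain ⟨i, hiI, hib, hiS⟩ := hi
  rintro ⟨m, hm⟩
  have q1 := ht.eq i hiI
  have q2 := hk.eq i hiI
  have q3 := hk.eq b hb
  obtain ⟨hl1, hl2⟩ := hlt i hiI
  have hV : Disjoint (V i) (V b) := hL.disj i hiI b hb hib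
  have hbn : b ∉ k.Ψ b ∪ (S \ k.Φ b) := by
    rw [Finset.mem_union, Finset.mem_sdiff]
    rintro (h1 | h1)
    · exact hk.nΨ b hb h1
    · exact hbS h1.1
  have hd2 : Disjoint (k.Ψ b) (S \ k.Φ b) := Disjoint.mono_right Finset.sdiff_subset hkd
  have hd3 : Disjoint (t.Ψ i ∪ k.Φ i) (insert b (k.Ψ b ∪ (S \ k.Φ b))) := by
    refine Disjoint.mono_left (Finset.union_subset (ht.sΨ i hiI) (hk.sΦ i hiI)) ?_
    rw [Finset.disjoint_left]
    intro x hx hx'
    rw [Finset.mem_insert, Finset.mem_union] at hx'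
    rcases hx' with h1 | h1 | h1
    · rw [h1] at hx
      exact Finset.disjoint_left.mp hV hx (hL.self b hb)
    · exact Finset.disjoint_left.mp hV hx (hk.sΨ b hb h1)
    · exact Finset.disjoint_left.mp hiS hx (Finset.mem_sdiff.mp h1).1
  have e1 : val e (m + ind (t.Φ i) + ind (k.Ψ i)) =
      sg e ((t.Ψ i ∪ k.Φ i) ∪ (insert b (k.Ψ b ∪ (S \ k.Φ b)))) := by
    rw [val_add, val_add, val_ind, val_ind, hm, sg_union e hd3, sg_union e hl1,
      sg_insert e hbn, sg_union e hd2, sg_sdiff e hkS]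
    have r1 : sg e (t.Φ i) = 2 • e i + sg e (t.Ψ i) - t.c := by rw [q1]; abel
    have r2 : sg e (k.Ψ i) = k.c + sg e (k.Φ i) - 2 • e i := by rw [← q2]; abel
    have r3 : sg e (k.Ψ b) = k.c + sg e (k.Φ b) - 2 • e b := by rw [← q3]; abel
    rw [r1, r2, r3, two_nsmul, two_nsmul]
    abel
  rw [Finset.not_disjoint_iff] at hl2
  obtain ⟨x, hx1, hx2⟩ := hl2
  have h1 := hS.le_one e1 x
  rw [Pi.add_apply, Pi.add_apply, ind_mem hx1, ind_mem hx2] at h1
  omega

end Pool.Agent.Work.MP_2a6590_nt.H97B
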