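import Pool.Agent.Work.MP_2a6590_nt.H97B.Tools

/-!
# MP_2a6590_nt, block B, item Extr: many small exchanges give a type
-/

namespace Pool.Agent.Work.MP_2a6590_nt.H97B

open Finset Pool.Agent.Work.MP_2a6590_nt.H97

namespace JExtr

theorem lost {ι : Type} [DecidableEq ι] (J : Finset ι) (V : ι → Finset ι) (Z : Finset ι)
    (hd : ∀ c ∈ J, ∀ d ∈ J, c ≠ d → Disjoint (V c) (V d)) :
    J.card ≤ (J.filter fun c => Disjoint (V c) Z).card + Z.card := by
  classical
  have h1 := Finset.card_filter_add_card_filter_not (s := J) (fun c => Disjoint (V c) Z)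
  have h2 : (J.filter fun c => ¬ Disjoint (V c) Z).card ≤ Z.card := by
    have hch : ∀ c, ∃ x, ¬ Disjoint (V c) Z → x ∈ V c ∧ x ∈ Z := by
      intro c
      by_cases h : Disjoint (V c) Z
      · exact ⟨c, fun h' => absurd h h'⟩
      · rw [Finset.not_disjoint_iff] at h
        obtain ⟨x, hx⟩ := h
        exact ⟨x, fun _ => hx⟩
    choose f hf using hch
    refine Finset.card_le_card_of_injOn f ?_ ?_
    · intro c hc
      exact (hf c (Finset.mem_filter.mp hc).2).2
    · intro c hc d hd' hcd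
      by_contra hne
      have hc' := Finset.mem_filter.mp (Finset.mem_coe.mp hc)
      have hd'' := Finset.mem_filter.mp (Finset.mem_coe.mp hd')
      have h3 := hd c hc'.1 d hd''.1 hne
      have h4 := (hf c hc'.2).1
      rw [hcd] at h4
      exact (Finset.disjoint_left.mp h3) h4 (hf d hd''.2).1
  omega

end JExtr

theorem prfExtr (h : S_sun) : S_extr := by
  intro s u M
  obtain ⟨K, hK⟩ := h (s + 2 * u) ((s + 2 * u) + M * (4 ^ (s + 2 * u) * (u + 1)) + 1)
  refine ⟨K, ?_⟩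
  intro ι H _ _ _ e N hS I A C hL a J hJI hKJ hex
  classical
  have hch : ∀ c, ∃ p : Finset ι × Finset ι, c ∈ J → p ∈ Fam e a c ∧ p.1.card ≤ u ∧
      Disjoint p.1 (A c) ∧ Disjoint p.2 (C c) := by
    intro c
    by_cases hc : c ∈ J
    · obtain ⟨_, p, hp1, hp2⟩ := hex c hc
      exact ⟨p, fun _ => ⟨hp1, hp2⟩⟩
    · exact ⟨(∅, ∅), fun hc' => absurd hc' hc⟩
  choose p hp using hch
  have hcard2 : ∀ c ∈ J, (p c).2.card = (p c).1.card := fun c hc =>
    ((mem_Fam.mp (hp c hc).1).2.2.1).symm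
  have hUk : ∀ c ∈ J, (Vu A C c ∪ ((p c).1 ∪ (p c).2)).card ≤ s + 2 * u := by
    intro c hc
    have h1 := hL.card c (hJI hc)
    have h2 := (hp c hc).2.1
    have h3 := hcard2 c hc
    have h4 := Finset.card_union_le (Vu A C c) ((p c).1 ∪ (p c).2)
    have h5 := Finset.card_union_le (p c).1 (p c).2
    omega
  obtain ⟨J', hJ'J, hJ'M, Z, hZU, hZd⟩ := hK ι ι J
    (fun c => Vu A C c ∪ ((p c).1 ∪ (p c).2)) hUk hKJ
  have hJ'ne : J'.Nonempty := by
    rw [← Finset.card_pos]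
    omega
  obtain ⟨c₀, hc₀⟩ := hJ'ne
  have hZk : Z.card ≤ s + 2 * u :=
    (Finset.card_le_card (hZU c₀ hc₀)).trans (hUk c₀ (hJ'J hc₀))
  have hlost := JExtr.lost J' (Vu A C) Z (fun c hc d hd hne =>
    hL.disj c (hJI (hJ'J hc)) d (hJI (hJ'J hd)) hne)
  set J2 := J'.filter fun c => Disjoint (Vu A C c) Z with hJ2
  set T : Finset (Finset ι × Finset ι × ℕ) :=
    Z.powerset ×ˢ Z.powerset ×ˢ range (u + 1) with hT
  have hTc : T.card ≤ 4 ^ (s + 2 * u) * (u + 1) := by
    rw [hT, Finset.card_product, Finset.card_product, Finset.card_powerset, Finset.card_range,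
      ← mul_assoc, ← mul_pow]
    refine Nat.mul_le_mul_right _ ?_
    exact Nat.pow_le_pow_right (by norm_num) hZk
  have hmaps : ∀ c ∈ J2, (((p c).1 ∩ Z, (p c).2 ∩ Z, (p c).1.card) :
      Finset ι × Finset ι × ℕ) ∈ T := by
    intro c hc
    have hcJ := hJ'J (Finset.mem_filter.mp hc).1
    rw [hT, Finset.mem_product, Finset.mem_product, Finset.mem_powerset, Finset.mem_powerset,
      Finset.mem_range]
    refine ⟨Finset.inter_subset_right, Finset.inter_subset_right, ?_⟩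
    have := (hp c hcJ).2.1
    show (p c).1.card < u + 1
    omega
  have hTne : T.Nonempty := by
    refine ⟨(∅, ∅, 0), ?_⟩
    rw [hT, Finset.mem_product, Finset.mem_product, Finset.mem_powerset, Finset.mem_range]
    exact ⟨Finset.empty_subset _, Finset.empty_subset _, Nat.succ_pos _⟩
  have hTJ : T.card * M ≤ J2.card := by
    have h1 : T.card * M ≤ 4 ^ (s + 2 * u) * (u + 1) * M := Nat.mul_le_mul_right _ hTc
    have h2 : 4 ^ (s + 2 * u) * (u + 1) * M = M * (4 ^ (s + 2 * u) * (u + 1)) := by ring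
    omega
  obtain ⟨⟨Z1, Z2, q⟩, hy, hyc⟩ := Finset.exists_le_card_fiber_of_mul_le_card_of_maps_to
    hmaps hTne hTJ
  set I₁ := J2.filter fun c => (((p c).1 ∩ Z, (p c).2 ∩ Z, (p c).1.card) :
      Finset ι × Finset ι × ℕ) = (Z1, Z2, q) with hI₁
  have hI : ∀ c ∈ I₁, c ∈ J' ∧ Disjoint (Vu A C c) Z ∧ (p c).1 ∩ Z = Z1 ∧ (p c).2 ∩ Z = Z2 ∧
      (p c).1.card = q := by
    intro c hc
    rw [hI₁, Finset.mem_filter, hJ2, Finset.mem_filter] at hc
    obtain ⟨⟨h1, h2⟩, h3⟩ := hc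
    obtain ⟨h4, h5⟩ := Prod.mk.inj h3
    obtain ⟨h6, h7⟩ := Prod.mk.inj h5
    exact ⟨h1, h2, h4, h6, h7⟩
  have hI₁J : I₁ ⊆ J := fun c hc => hJ'J (hI c hc).1
  have hq : q ≤ u := by
    rw [hT, Finset.mem_product, Finset.mem_product, Finset.mem_range] at hy
    have := hy.2.2
    have h' : q < u + 1 := this
    omega
  have hVtU : ∀ c ∈ I₁, Vu A C c ∪ (((p c).2 \ Z) ∪ ((p c).1 \ Z)) ⊆
      Vu A C c ∪ ((p c).1 ∪ (p c).2) := by
    intro c _ x hx
    simp only [Finset.mem_union, Finset.mem_sdiff] at hx ⊢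
    tauto
  have hVtZ : ∀ c ∈ I₁, ∀ x ∈ Vu A C c ∪ (((p c).2 \ Z) ∪ ((p c).1 \ Z)), x ∉ Z := by
    intro c hc x hx hxZ
    simp only [Finset.mem_union, Finset.mem_sdiff] at hx
    rcases hx with hx | hx | hx
    · exact (Finset.disjoint_left.mp (hI c hc).2.1) hx hxZ
    · exact hx.2 hxZ
    · exact hx.2 hxZ
  refine ⟨I₁, hI₁J, hyc, ⟨2 • e a + sg e Z2 - sg e Z1, fun c => (p c).2 \ Z,
    fun c => (p c).1 \ Z, q - Z2.card, q - Z1.card⟩, by show q - Z2.card ≤ u; omega,
    by show q - Z1.card ≤ u; omega, ?_, ?_, ?_⟩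
  · refine ⟨?_, ?_, ?_, ?_, ?_, ?_, ?_, ?_⟩
    · intro c hc
      show 2 • e c + sg e ((p c).1 \ Z) = 2 • e a + sg e Z2 - sg e Z1 + sg e ((p c).2 \ Z)
      have h1 := (mem_Fam.mp (hp c (hI₁J hc)).1).2.2.2
      have h2 : sg e (p c).1 = sg e ((p c).1 \ Z) + sg e Z1 := by
        have := sg_sdiff e (S := (p c).1) (T := (p c).1 ∩ Z) Finset.inter_subset_left
        rw [Finset.sdiff_inter_self_left, (hI c hc).2.2.1] at this
        exact this
      have h3 : sg e (p c).2 = sg e ((p c).2 \ Z) + sg e Z2 := by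
        have := sg_sdiff e (S := (p c).2) (T := (p c).2 ∩ Z) Finset.inter_subset_left
        rw [Finset.sdiff_inter_self_left, (hI c hc).2.2.2.1] at this
        exact this
      rw [h2, h3] at h1
      have h4 : 2 • e c + sg e ((p c).1 \ Z) =
          (2 • e c + (sg e ((p c).1 \ Z) + sg e Z1)) - sg e Z1 := by abel
      rw [h4, ← h1]
      abel
    · intro c hc
      show Disjoint ((p c).2 \ Z) ((p c).1 \ Z)
      exact ((mem_Fam.mp (hp c (hI₁J hc)).1).1.symm).mono Finset.sdiff_subset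
        Finset.sdiff_subset
    · intro c hc x hx
      exact Finset.mem_union_right _ (Finset.mem_union_left _ hx)
    · intro c hc x hx
      exact Finset.mem_union_right _ (Finset.mem_union_right _ hx)
    · intro c hc
      show c ∉ (p c).2 \ Z
      intro hx
      exact (mem_Fam.mp (hp c (hI₁J hc)).1).2.1.2.2.2 (Finset.mem_sdiff.mp hx).1
    · intro c hc
      show c ∉ (p c).1 \ Z
      intro hx
      exact (mem_Fam.mp (hp c (hI₁J hc)).1).2.1.2.1 (Finset.mem_sdiff.mp hx).1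
    · intro c hc
      show ((p c).2 \ Z).card = q - Z2.card
      have h1 := Finset.card_sdiff_add_card_inter (p c).2 Z
      rw [(hI c hc).2.2.2.1, hcard2 c (hI₁J hc), (hI c hc).2.2.2.2] at h1
      omega
    · intro c hc
      show ((p c).1 \ Z).card = q - Z1.card
      have h1 := Finset.card_sdiff_add_card_inter (p c).1 Z
      rw [(hI c hc).2.2.1, (hI c hc).2.2.2.2] at h1
      omega
  · intro c hc
    refine ⟨?_, ?_⟩
    · exact (hp c (hI₁J hc)).2.2.2.mono_left Finset.sdiff_subset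
    · exact (hp c (hI₁J hc)).2.2.1.mono_left Finset.sdiff_subset
  · refine ⟨?_, ?_, ?_⟩
    · intro c hc
      exact Finset.mem_union_left _ (Finset.mem_insert_self _ _)
    · intro c hc
      exact (Finset.card_le_card (hVtU c hc)).trans (hUk c (hI₁J hc))
    · intro c hc d hd hne
      rw [Finset.disjoint_left]
      intro x hx hx'
      have h1 : x ∈ (Vu A C c ∪ ((p c).1 ∪ (p c).2)) ∩ (Vu A C d ∪ ((p d).1 ∪ (p d).2)) :=
        Finset.mem_inter.mpr ⟨hVtU c hc hx, hVtU d hd hx'⟩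
      have h2 := hZd c (hI c hc).1 d (hI d hd).1 hne
      have h3 : (Vu A C c ∪ ((p c).1 ∪ (p c).2)) ∩ (Vu A C d ∪ ((p d).1 ∪ (p d).2)) = Z := h2
      rw [h3] at h1
      exact hVtZ c hc x hx h1

end Pool.Agent.Work.MP_2a6590_nt.H97B
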