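import Pool.Agent.Work.MP_2a6590_nt.H97B.Tools

set_option autoImplicit false

/-!
# MP_2a6590_nt, block B: central binomial coefficients and large exchanges
-/

namespace Pool.Agent.Work.MP_2a6590_nt.H97B

open Finset Pool.Agent.Work.MP_2a6590_nt.H97

namespace JLarge

theorem central_sq (u : ℕ) :
    ((2 * u).choose u : ℚ) ^ 2 * (2 * u + 1) ≤ (4 ^ u) ^ 2 := by
  induction u with
  | zero => norm_num
  | succ u ih =>
    have h := Nat.succ_mul_centralBinom_succ u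
    simp only [Nat.centralBinom] at h
    have h' : ((u : ℚ) + 1) * ((2 * (u + 1)).choose (u + 1) : ℚ) =
        2 * (2 * u + 1) * ((2 * u).choose u : ℚ) := by exact_mod_cast h
    have hu : (0 : ℚ) ≤ (u : ℚ) := Nat.cast_nonneg _
    have hpos : (0 : ℚ) < ((u : ℚ) + 1) ^ 2 := by positivity
    rw [← mul_le_mul_iff_right₀ hpos]
    push_cast
    have e1 : ((u : ℚ) + 1) ^ 2 * (((2 * (u + 1)).choose (u + 1) : ℚ) ^ 2 *
        (2 * ((u : ℚ) + 1) + 1)) =
        (((u : ℚ) + 1) * ((2 * (u + 1)).choose (u + 1) : ℚ)) ^ 2 * (2 * ((u : ℚ) + 1) + 1) := by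
      ring
    have e2 : (2 * (2 * (u : ℚ) + 1) * ((2 * u).choose u : ℚ)) ^ 2 * (2 * ((u : ℚ) + 1) + 1) =
        4 * (2 * u + 1) * (2 * u + 3) * (((2 * u).choose u : ℚ) ^ 2 * (2 * u + 1)) := by
      ring
    rw [e1, h', e2]
    have e3 : (4 * (2 * (u : ℚ) + 1) * (2 * u + 3)) * (((2 * u).choose u : ℚ) ^ 2 * (2 * u + 1)) ≤
        (4 * (2 * (u : ℚ) + 1) * (2 * u + 3)) * (4 ^ u) ^ 2 :=
      mul_le_mul_of_nonneg_left ih (by positivity)
    refine e3.trans ?_
    have e4 : (4 * (2 * (u : ℚ) + 1) * (2 * u + 3)) ≤ ((u : ℚ) + 1) ^ 2 * 16 := by nlinarith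
    have e5 := mul_le_mul_of_nonneg_right e4 (by positivity : (0 : ℚ) ≤ (4 ^ u) ^ 2)
    refine e5.trans (le_of_eq ?_)
    ring

end JLarge

open JLarge in
theorem prfBin : S_bin := by
  intro τ hτ
  obtain ⟨k, hk⟩ := exists_nat_ge (1 / τ ^ 2)
  refine ⟨k, fun u hu => ?_⟩
  have h1 := central_sq u
  have h2 : (k : ℚ) ≤ (u : ℚ) := by exact_mod_cast hu.le
  have h3 : 1 ≤ τ ^ 2 * (2 * (u : ℚ) + 1) := by
    rw [div_le_iff₀ (by positivity)] at hk
    have h4 : (k : ℚ) * τ ^ 2 ≤ (2 * (u : ℚ) + 1) * τ ^ 2 := by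
      refine mul_le_mul_of_nonneg_right ?_ (sq_nonneg τ)
      have : (0 : ℚ) ≤ (u : ℚ) := Nat.cast_nonneg _
      linarith
    linarith
  have h5 : ((2 * u).choose u : ℚ) ^ 2 ≤ (4 ^ u * τ) ^ 2 := by
    have h6 := mul_le_mul_of_nonneg_left h3 (sq_nonneg ((2 * u).choose u : ℚ))
    have h7 := mul_le_mul_of_nonneg_right h1 (sq_nonneg τ)
    nlinarith
  have h8 : (0 : ℚ) ≤ 4 ^ u * τ := by positivity
  by_contra hcon
  push Not at hcon
  nlinarith

open JLarge in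
theorem prfLarge (h : S_bin) : S_large := by
  intro τ hτ
  obtain ⟨τ', h0, h1⟩ := exists_rat_btwn hτ
  have h0' : (0 : ℚ) < τ' := by exact_mod_cast h0
  obtain ⟨u₀, hu⟩ := h τ' h0'
  refine ⟨u₀, ?_⟩
  intro ι H _ _ _ e N hS a c hac
  have key : ((((Fam e a c).filter fun p => u₀ < p.1.card).biUnion (Cmp a c)).card : ℚ) ≤
      τ' * 2 ^ Fintype.card ι := by
    have k1 : ((((Fam e a c).filter fun p => u₀ < p.1.card).biUnion (Cmp a c)).card : ℚ) ≤
        ∑ p ∈ (Fam e a c).filter (fun p => u₀ < p.1.card), ((Cmp a c p).card : ℚ) := by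
      exact_mod_cast Finset.card_biUnion_le
    have k2 : ∑ p ∈ (Fam e a c).filter (fun p => u₀ < p.1.card), ((Cmp a c p).card : ℚ) =
        ∑ p ∈ (Fam e a c).filter (fun p => u₀ < p.1.card), 2 ^ (Fintype.card ι - 2) * dw p :=
      Finset.sum_congr rfl fun p hp => Cmp_card hac (Finset.mem_filter.mp hp).1
    have k3 : ∑ p ∈ (Fam e a c).filter (fun p => u₀ < p.1.card), dw p ≤
        ∑ p ∈ (Fam e a c).filter (fun p => u₀ < p.1.card), τ' * bw p := by
      refine Finset.sum_le_sum fun p hp => ?_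
      obtain ⟨hp1, hp2⟩ := Finset.mem_filter.mp hp
      exact dw_le_of (mem_Fam.mp hp1).2.2.1 (hu _ hp2)
    have k4 : ∑ p ∈ (Fam e a c).filter (fun p => u₀ < p.1.card), bw p ≤ 1 :=
      boll _ ((Fam_cross hS.vd a c).mono (Finset.filter_subset _ _))
    rw [← Finset.mul_sum] at k3
    have k5 : τ' * ∑ p ∈ (Fam e a c).filter (fun p => u₀ < p.1.card), bw p ≤ τ' * 1 :=
      mul_le_mul_of_nonneg_left k4 h0'.le
    rw [← Finset.mul_sum] at k2
    have k6 : (2 : ℚ) ^ (Fintype.card ι - 2) ≤ 2 ^ Fintype.card ι :=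
      pow_le_pow_right₀ (by norm_num) (Nat.sub_le _ _)
    calc ((((Fam e a c).filter fun p => u₀ < p.1.card).biUnion (Cmp a c)).card : ℚ)
        ≤ 2 ^ (Fintype.card ι - 2) *
          ∑ p ∈ (Fam e a c).filter (fun p => u₀ < p.1.card), dw p := by rw [← k2]; exact k1
      _ ≤ 2 ^ (Fintype.card ι - 2) * τ' :=
          mul_le_mul_of_nonneg_left (k3.trans (k5.trans (le_of_eq (mul_one _)))) (by positivity)
      _ ≤ 2 ^ Fintype.card ι * τ' := mul_le_mul_of_nonneg_right k6 h0'.le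
      _ = τ' * 2 ^ Fintype.card ι := mul_comm _ _
  have key' : ((((Fam e a c).filter fun p => u₀ < p.1.card).biUnion (Cmp a c)).card : ℝ) ≤
      (τ' : ℝ) * 2 ^ Fintype.card ι := by exact_mod_cast key
  exact key'.trans (mul_le_mul_of_nonneg_right h1.le (by positivity))

end Pool.Agent.Work.MP_2a6590_nt.H97B
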