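import Pool.Agent.Work.MP_2a6590_nt.H97B.Tools

set_option autoImplicit false

namespace Pool.Agent.Work.MP_2a6590_nt.H97B

open Finset Pool.Agent.Work.MP_2a6590_nt.H97

namespace JLcl

section

variable {ι H : Type} [Fintype ι] [DecidableEq ι] [AddCommGroup H]

open Classical in
/-- The indices with a small exchange. -/
noncomputable def sm (e : ι → H) (I : Finset ι) (A C : ι → Finset ι) (u : ℕ) (S : Finset ι)
    (a : ι) : Finset ι :=
  I.filter fun c => c ≠ a ∧ ∃ p ∈ Fam e a c, p.1.card ≤ u ∧ S ∈ Cmp a c p ∧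
    Disjoint p.1 (A c) ∧ Disjoint p.2 (C c)

/-- The sets with a large exchange. -/
noncomputable def Lg (e : ι → H) (u : ℕ) (a c : ι) : Finset (Finset ι) :=
  ((Fam e a c).filter fun p => u < p.1.card).biUnion (Cmp a c)

theorem EE_le (e : ι → H) (I : Finset ι) (A C : ι → Finset ι) (u : ℕ) (S : Finset ι) (a : ι) :
    (EE e I A C S a).card ≤ (sm e I A C u S a).card +
      (I.filter fun c => c ≠ a ∧ S ∈ Lg e u a c).card := by
  refine (Finset.card_le_card ?_).trans (Finset.card_union_le _ _)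
  intro c hc
  rw [EE, mem_filter] at hc
  obtain ⟨hcI, hca, p, hp, h1, h2, h3⟩ := hc
  rw [mem_union]
  by_cases hu : p.1.card ≤ u
  · left
    rw [sm, mem_filter]
    exact ⟨hcI, hca, p, hp, hu, h1, h2, h3⟩
  · right
    rw [mem_filter]
    refine ⟨hcI, hca, ?_⟩
    rw [Lg, mem_biUnion]
    exact ⟨p, mem_filter.mpr ⟨hp, not_le.mp hu⟩, h1⟩

theorem sum_large (e : ι → H) (I : Finset ι) (A C : ι → Finset ι) (u : ℕ) :
    ∑ p ∈ Prs I A C, (I.filter fun c => c ≠ p.2 ∧ p.1 ∈ Lg e u p.2 c).card ≤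
      ∑ a ∈ I, ∑ c ∈ I.filter (fun c => c ≠ a), (Lg e u a c).card := by
  have hsub : Prs I A C ⊆ univ ×ˢ I := by
    intro p hp
    rw [Prs, mem_filter, XX, mem_filter] at hp
    rw [mem_product]
    exact ⟨mem_univ _, hp.2.1⟩
  refine (Finset.sum_le_sum_of_subset hsub).trans ?_
  rw [Finset.sum_product_right]
  refine Finset.sum_le_sum fun a ha => le_of_eq ?_
  simp only [Finset.card_filter]
  rw [Finset.sum_comm, Finset.sum_filter]
  refine Finset.sum_congr rfl fun c hc => ?_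
  by_cases hca : c = a
  · simp [hca]
  · simp [hca]

end

theorem num (m X t d K E N : ℝ) (hm : 1 ≤ m) (hX : 0 < X) (hd : 0 < d) (hd4 : d ≤ 1 / 4)
    (hE : E = K * m * X + m ^ 2 * (d ^ 2 / 4) * X)
    (ht1 : 2 * d * m ^ 2 * X ≤ t) (ht2 : t ≤ m ^ 2 * X)
    (hK : 2 * K / d + (2 + 2 * K) / d ^ 2 ≤ m) (hN : N ≤ X)
    (h : 2 * (t - E) / (d * m) - (2 * t + 2 * m * E) / (d * m) ^ 2 ≤ 2 * m * (N - X / 2)) :
    False := by
  have hm0 : 0 < m := by linarith
  have hdm : 0 < d * m := by positivity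
  have h1 : 4 * m * X - 2 * K / d * X - m * d * X / 2 ≤ 2 * (t - E) / (d * m) := by
    have e1 : 4 * m * X - 2 * K / d * X - m * d * X / 2 =
        2 * (2 * d * m ^ 2 * X - E) / (d * m) := by
      rw [hE]
      field_simp
      ring
    rw [e1]
    apply div_le_div_of_nonneg_right _ hdm.le
    linarith
  have h2 : (2 * t + 2 * m * E) / (d * m) ^ 2 ≤ (2 + 2 * K) / d ^ 2 * X + m * X / 2 := by
    have e2 : (2 + 2 * K) / d ^ 2 * X + m * X / 2 =
        (2 * (m ^ 2 * X) + 2 * m * E) / (d * m) ^ 2 := by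
      rw [hE]
      field_simp
      ring
    rw [e2]
    apply div_le_div_of_nonneg_right _ (by positivity)
    linarith
  have h3 : 2 * m * (N - X / 2) ≤ m * X := by nlinarith
  have h4 : (2 * K / d + (2 + 2 * K) / d ^ 2) * X ≤ m * X := by
    exact mul_le_mul_of_nonneg_right hK hX.le
  have h5 : m * d * X / 2 ≤ m * X / 8 := by
    have : 0 < m * X := by positivity
    nlinarith
  have h6 : 0 < m * X := by positivity
  nlinarith

end JLcl

open JLcl in
theorem prfLcl (h1 : S_large) (h2 : S_extr) (h3 : S_tri) (h4 : S_wt) : S_lcl := by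
  intro s
  set d : ℝ := 1 / (4 * 4 ^ s) with hd
  have hd0 : 0 < d := by rw [hd]; positivity
  have hd4 : d ≤ 1 / 4 := by
    rw [hd]
    apply one_div_le_one_div_of_le (by norm_num)
    have : (1 : ℝ) ≤ 4 ^ s := one_le_pow₀ (by norm_num)
    linarith
  obtain ⟨u, hu⟩ := h1 (d ^ 2 / 4) (by positivity)
  refine ⟨2 * u, fun M => ?_⟩
  obtain ⟨K, hK⟩ := h2 s u M
  obtain ⟨M', hM'⟩ := exists_nat_ge (2 * (K : ℝ) / d + (2 + 2 * (K : ℝ)) / d ^ 2)
  refine ⟨max 2 M', ?_⟩
  intro ι H _ _ _ e N hS hN I A C hL hAC hI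
  have hI2 : 2 ≤ I.card := le_trans (le_max_left _ _) hI
  have hIM : (M' : ℝ) ≤ (I.card : ℝ) := by exact_mod_cast le_trans (le_max_right _ _) hI
  by_cases hbig : ∃ p ∈ Prs I A C, K < (sm e I A C u p.1 p.2).card
  · obtain ⟨p, hp, hpK⟩ := hbig
    obtain ⟨I₁, hI₁, hMI, t, hφ, hψ, hty, hdj, hloc⟩ := hK ι H e N hS I A C hL p.2
      (sm e I A C u p.1 p.2) (by rw [sm]; exact filter_subset _ _) hpK (by
        intro c hc
        rw [sm, mem_filter] at hc
        obtain ⟨_, hca, q, hq, q1, _, q3, q4⟩ := hc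
        exact ⟨hca, q, hq, q1, q3, q4⟩)
    have hsub : sm e I A C u p.1 p.2 ⊆ I := by rw [sm]; exact filter_subset _ _
    exact ⟨I₁, hI₁.trans hsub, hMI, t, by omega, hty, hdj, hloc⟩
  · push Not at hbig
    exfalso
    have hm1 : (1 : ℝ) ≤ (I.card : ℝ) := by exact_mod_cast (by omega : 1 ≤ I.card)
    obtain ⟨t1, t2, t3⟩ := h3 ι I A C s hL hAC
    have hX : (0 : ℝ) < 2 ^ Fintype.card ι := by positivity
    have hlg : ∑ p ∈ Prs I A C, ((I.filter fun c => c ≠ p.2 ∧ p.1 ∈ Lg e u p.2 c).card : ℝ) ≤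
        (I.card : ℝ) ^ 2 * (d ^ 2 / 4) * 2 ^ Fintype.card ι := by
      have q1 : (∑ p ∈ Prs I A C, ((I.filter fun c => c ≠ p.2 ∧ p.1 ∈ Lg e u p.2 c).card : ℝ)) ≤
          ∑ a ∈ I, ∑ c ∈ I.filter (fun c => c ≠ a), ((Lg e u a c).card : ℝ) := by
        exact_mod_cast sum_large e I A C u
      refine q1.trans ?_
      have q2 : ∀ a ∈ I, ∑ c ∈ I.filter (fun c => c ≠ a), ((Lg e u a c).card : ℝ) ≤
          (I.card : ℝ) * (d ^ 2 / 4 * 2 ^ Fintype.card ι) := by
        intro a _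
        have q3 : ∀ c ∈ I.filter (fun c => c ≠ a), ((Lg e u a c).card : ℝ) ≤
            d ^ 2 / 4 * 2 ^ Fintype.card ι := by
          intro c hc
          rw [mem_filter] at hc
          exact hu ι H e N hS a c (Ne.symm hc.2)
        refine (Finset.sum_le_sum q3).trans ?_
        rw [Finset.sum_const, nsmul_eq_mul]
        apply mul_le_mul_of_nonneg_right _ (by positivity)
        exact_mod_cast Finset.card_filter_le _ _
      refine (Finset.sum_le_sum q2).trans ?_
      rw [Finset.sum_const, nsmul_eq_mul]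
      apply le_of_eq
      ring
    have hE : ∑ p ∈ Prs I A C, ((EE e I A C p.1 p.2).card : ℝ) ≤
        (K : ℝ) * I.card * 2 ^ Fintype.card ι +
          (I.card : ℝ) ^ 2 * (d ^ 2 / 4) * 2 ^ Fintype.card ι := by
      have q1 : ∀ p ∈ Prs I A C, ((EE e I A C p.1 p.2).card : ℝ) ≤ (K : ℝ) +
          ((I.filter fun c => c ≠ p.2 ∧ p.1 ∈ Lg e u p.2 c).card : ℝ) := by
        intro p hp
        have a1 := EE_le e I A C u p.1 p.2
        have a2 := hbig p hp
        exact_mod_cast a1.trans (Nat.add_le_add_right a2 _)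
      refine (Finset.sum_le_sum q1).trans ?_
      rw [Finset.sum_add_distrib, Finset.sum_const, nsmul_eq_mul]
      have q2 : ((Prs I A C).card : ℝ) * (K : ℝ) ≤ (K : ℝ) * I.card * 2 ^ Fintype.card ι := by
        have : ((Prs I A C).card : ℝ) ≤ (I.card : ℝ) * 2 ^ Fintype.card ι := by exact_mod_cast t1
        calc ((Prs I A C).card : ℝ) * (K : ℝ) ≤ ((I.card : ℝ) * 2 ^ Fintype.card ι) * K :=
              mul_le_mul_of_nonneg_right this (by positivity)
          _ = _ := by ring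
      linarith
    have hwt := h4 ι H e N hS I A C hAC (d * I.card)
      ((K : ℝ) * I.card * 2 ^ Fintype.card ι +
        (I.card : ℝ) ^ 2 * (d ^ 2 / 4) * 2 ^ Fintype.card ι) (by positivity) hE
    refine num (I.card : ℝ) (2 ^ Fintype.card ι) ((Tri I A C).card : ℝ) d K _ N hm1 hX hd0 hd4
      rfl ?_ (by exact_mod_cast t2) (hM'.trans hIM) (by exact_mod_cast hN) hwt
    have t3' : (I.card : ℝ) * ((I.card : ℝ) - 1) * 2 ^ Fintype.card ι ≤
        4 ^ s * ((Tri I A C).card : ℝ) := by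
      have : ((I.card * (I.card - 1) * 2 ^ Fintype.card ι : ℕ) : ℝ) ≤
          ((4 ^ s * (Tri I A C).card : ℕ) : ℝ) := by exact_mod_cast t3
      rw [Nat.cast_mul, Nat.cast_mul, Nat.cast_sub (by omega : 1 ≤ I.card)] at this
      push_cast at this
      exact this
    have hI2' : (2 : ℝ) ≤ (I.card : ℝ) := by exact_mod_cast hI2
    have t4 : (I.card : ℝ) ^ 2 / 2 ≤ (I.card : ℝ) * ((I.card : ℝ) - 1) := by nlinarith
    have t5 : (I.card : ℝ) ^ 2 / 2 * 2 ^ Fintype.card ι ≤ 4 ^ s * ((Tri I A C).card : ℝ) :=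
      (mul_le_mul_of_nonneg_right t4 hX.le).trans t3'
    have h4s : (0 : ℝ) < 4 ^ s := by positivity
    have t6 : 2 * d * (I.card : ℝ) ^ 2 * 2 ^ Fintype.card ι =
        ((I.card : ℝ) ^ 2 / 2 * 2 ^ Fintype.card ι) / 4 ^ s := by
      rw [hd]
      field_simp
      ring
    rw [t6, div_le_iff₀ h4s]
    linarith

end Pool.Agent.Work.MP_2a6590_nt.H97B
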