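import Pool.Agent.Work.MP_2a6590_nt.H97B.Tools

set_option autoImplicit false

namespace Pool.Agent.Work.MP_2a6590_nt.H97B

namespace JSun

/-- A maximal subfamily of pairwise disjoint sets. -/
lemma exists_max_disj {α β : Type} [DecidableEq α] [DecidableEq β] (J : Finset α)
    (U : α → Finset β) :
    ∃ J0 ⊆ J, (∀ c ∈ J0, ∀ d ∈ J0, c ≠ d → U c ∩ U d = ∅) ∧
      ∀ c ∈ J, c ∉ J0 → (U c ∩ J0.biUnion U).Nonempty := by
  have hne : (J.powerset.filter
      (fun S => ∀ c ∈ S, ∀ d ∈ S, c ≠ d → U c ∩ U d = ∅)).Nonempty :=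
    ⟨∅, by simp⟩
  obtain ⟨J0, hJ0, hmax⟩ := Finset.exists_max_image _ Finset.card hne
  rw [Finset.mem_filter, Finset.mem_powerset] at hJ0
  refine ⟨J0, hJ0.1, hJ0.2, fun c hc hcn => ?_⟩
  by_contra hcon
  rw [Finset.not_nonempty_iff_eq_empty] at hcon
  have hd : ∀ d ∈ J0, U c ∩ U d = ∅ := by
    intro d hd
    rw [← Finset.subset_empty, ← hcon]
    exact Finset.inter_subset_inter_left (Finset.subset_biUnion_of_mem U hd)
  have hmem : insert c J0 ∈ J.powerset.filter
      (fun S => ∀ c ∈ S, ∀ d ∈ S, c ≠ d → U c ∩ U d = ∅) := by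
    rw [Finset.mem_filter, Finset.mem_powerset]
    refine ⟨Finset.insert_subset hc hJ0.1, ?_⟩
    intro a ha b hb hab
    rcases Finset.mem_insert.1 ha with rfl | ha'
    · rcases Finset.mem_insert.1 hb with rfl | hb'
      · exact absurd rfl hab
      · exact hd b hb'
    · rcases Finset.mem_insert.1 hb with rfl | hb'
      · rw [Finset.inter_comm]; exact hd a ha'
      · exact hJ0.2 a ha' b hb' hab
  have := hmax _ hmem
  rw [Finset.card_insert_of_notMem hcn] at this
  omega

end JSun

theorem prfSun : S_sun := by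
  intro k M
  induction k with
  | zero =>
    refine ⟨M, ?_⟩
    intro α β _ _ J U hU hJ
    refine ⟨J, le_rfl, hJ.le, ∅, fun c _ => Finset.empty_subset _, ?_⟩
    intro c hc d _ _
    have h0 : U c = ∅ := by
      rw [← Finset.card_eq_zero]
      exact Nat.le_zero.1 (hU c hc)
    rw [h0, Finset.empty_inter]
  | succ k ih =>
    obtain ⟨K', hK'⟩ := ih
    refine ⟨M + M * (k + 1) * (K' + 1), ?_⟩
    intro α β _ _ J U hU hJ
    obtain ⟨J0, hJ0s, hJ0d, hJ0m⟩ := JSun.exists_max_disj J U
    by_cases hM : M ≤ J0.card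
    · exact ⟨J0, hJ0s, hM, ∅, fun c _ => Finset.empty_subset _, hJ0d⟩
    push Not at hM
    set B := J0.biUnion U with hB
    have hBc : B.card ≤ M * (k + 1) := by
      calc B.card ≤ J0.card * (k + 1) :=
            Finset.card_biUnion_le_card_mul J0 U (k + 1) (fun c hc => hU c (hJ0s hc))
        _ ≤ M * (k + 1) := Nat.mul_le_mul_right _ hM.le
    have hex : ∃ x ∈ B, K' < (J.filter (fun c => x ∈ U c)).card := by
      by_contra hcon
      push Not at hcon
      have hsub : J \ J0 ⊆ B.biUnion (fun x => J.filter (fun c => x ∈ U c)) := by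
        intro c hc
        rw [Finset.mem_sdiff] at hc
        obtain ⟨x, hx⟩ := hJ0m c hc.1 hc.2
        rw [Finset.mem_inter] at hx
        rw [Finset.mem_biUnion]
        exact ⟨x, hx.2, Finset.mem_filter.2 ⟨hc.1, hx.1⟩⟩
      have h1 : (J \ J0).card ≤ B.card * K' :=
        (Finset.card_le_card hsub).trans (Finset.card_biUnion_le_card_mul B _ K' hcon)
      have h2 : (J \ J0).card ≤ M * (k + 1) * K' := h1.trans (Nat.mul_le_mul_right _ hBc)
      have h3 : J.card = (J \ J0).card + J0.card := by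
        rw [Finset.card_sdiff_add_card_eq_card hJ0s]
      have h4 : M * (k + 1) * (K' + 1) = M * (k + 1) * K' + M * (k + 1) := by ring
      omega
    obtain ⟨x, -, hx⟩ := hex
    obtain ⟨J', hJ's, hJ'M, Z, hZs, hZ⟩ := hK' α β (J.filter (fun c => x ∈ U c))
      (fun c => (U c).erase x) (by
        intro c hc
        rw [Finset.mem_filter] at hc
        have h1 := hU c hc.1
        have h2 := Finset.card_erase_of_mem hc.2
        show ((U c).erase x).card ≤ k
        omega) hx
    have hmx : ∀ c ∈ J', x ∈ U c := fun c hc => (Finset.mem_filter.1 (hJ's hc)).2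
    refine ⟨J', hJ's.trans (Finset.filter_subset _ _), hJ'M, insert x Z, ?_, ?_⟩
    · intro c hc
      exact Finset.insert_subset (hmx c hc) ((hZs c hc).trans (Finset.erase_subset _ _))
    · intro c hc d hd hcd
      have h := hZ c hc d hd hcd
      rw [← h]
      ext y
      simp only [Finset.mem_inter, Finset.mem_insert, Finset.mem_erase]
      constructor
      · rintro ⟨h1, h2⟩
        by_cases hy : y = x
        · exact Or.inl hy
        · exact Or.inr ⟨⟨hy, h1⟩, ⟨hy, h2⟩⟩
      · rintro (rfl | ⟨⟨_, h1⟩, ⟨_, h2⟩⟩)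
        · exact ⟨hmx c hc, hmx d hd⟩
        · exact ⟨h1, h2⟩

end Pool.Agent.Work.MP_2a6590_nt.H97B
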