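import Pool.Agent.Work.MP_2a6590_nt.H97B.Tools

set_option autoImplicit false

/-!
# MP_2a6590_nt, block B: the total count
-/

namespace Pool.Agent.Work.MP_2a6590_nt.H97B

open Finset Pool.Agent.Work.MP_2a6590_nt.H97

namespace JTot

section

variable {ι : Type} [Fintype ι] [DecidableEq ι]

theorem cIcc (X Y : Finset ι) (h : Disjoint X Y) :
    ((Icc X Yᶜ).card : ℝ) = 2 ^ Fintype.card ι / 2 ^ (X.card + Y.card) := by
  have h1 : X ⊆ Yᶜ := by
    intro x hx
    rw [mem_compl]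
    exact fun hy => (Finset.disjoint_left.mp h) hx hy
  have h2 : X.card + Y.card ≤ Fintype.card ι := by
    rw [← card_union_of_disjoint h]
    exact card_le_univ _
  rw [card_Icc_finset h1, card_compl]
  have h3 : Fintype.card ι - Y.card - X.card + (X.card + Y.card) = Fintype.card ι := by omega
  rw [eq_div_iff (by positivity)]
  push_cast
  rw [← pow_add, h3]

theorem mIcc {X Y S : Finset ι} (h : S ∈ Icc X Yᶜ) : X ⊆ S ∧ Disjoint Y S := by
  rw [mem_Icc] at h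
  refine ⟨h.1, ?_⟩
  rw [Finset.disjoint_left]
  intro y hy hS
  have := h.2 hS
  rw [mem_compl] at this
  exact this hy

theorem mIcc' {X Y S : Finset ι} (h1 : X ⊆ S) (h2 : Disjoint Y S) : S ∈ Icc X Yᶜ := by
  rw [mem_Icc]
  refine ⟨h1, ?_⟩
  intro y hy
  rw [mem_compl]
  exact fun h => (Finset.disjoint_left.mp h2) h hy

theorem cSd (G B : Finset (Finset ι)) : (G.card : ℝ) - B.card ≤ ((G \ B).card : ℝ) := by
  have h : G.card ≤ (G \ B).card + B.card := by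
    have := Finset.card_le_card_sdiff_add_card (s := G) (t := B)
    omega
  have h' : (G.card : ℝ) ≤ (G \ B).card + B.card := by exact_mod_cast h
  linarith

end

section

variable {ι H : Type} [Fintype ι] [DecidableEq ι] [AddCommGroup H] {e : ι → H} {N : ℕ}

/-- one type -/
theorem one (h1 : S_regI) (h2 : S_regII) (hS : Sys e N) {I : Finset ι} {V : ι → Finset ι} {s : ℕ}
    (hL : Loc I V s) {b : ι} (hb : b ∈ I) (B : Finset (Finset ι))
    (hB : ∀ S, S ∉ B → Typ I V b S) (t : TyD ι H) (ht : IsTy e I V t) (w : ℝ)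
    (hw : (t.φ ≠ 0 ∧ w ≤ 1 / 2 ^ (t.ψ + 2)) ∨
      ∃ k : TyD ι H, IsTy e I V k ∧ TLt I t k ∧ w ≤ 1 / 2 ^ (1 + k.φ + k.ψ)) :
    ∃ F : Finset (Finset ι), (∀ S ∈ F, Typ I V b S ∧ ¬ MM e (t.c + sg e S - e b)) ∧
      2 ^ Fintype.card ι * w - B.card ≤ (F.card : ℝ) := by
  have hpos : (0 : ℝ) < 2 ^ Fintype.card ι := by positivity
  rcases hw with ⟨hφ, hw⟩ | ⟨k, hk, htk, hw⟩
  · have hcY : (insert b (t.Ψ b)).card = t.ψ + 1 := by
      rw [card_insert_of_notMem (ht.nΨ b hb), ht.kΨ b hb]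
    have hdj : Disjoint (t.Φ b) (insert b (t.Ψ b)) := by
      rw [Finset.disjoint_insert_right]
      exact ⟨ht.nΦ b hb, ht.dj b hb⟩
    have c1 := cIcc (∅ : Finset ι) (insert b (t.Ψ b)) (Finset.disjoint_empty_left _)
    have c2 := cIcc (t.Φ b) (insert b (t.Ψ b)) hdj
    rw [card_empty, zero_add, hcY] at c1
    rw [hcY, ht.kΦ b hb] at c2
    refine ⟨(Icc ∅ (insert b (t.Ψ b))ᶜ \ Icc (t.Φ b) (insert b (t.Ψ b))ᶜ) \ B, ?_, ?_⟩
    · intro S hS'
      rw [mem_sdiff, mem_sdiff] at hS'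
      obtain ⟨⟨hS1, hS2⟩, hS3⟩ := hS'
      have h3 := (mIcc hS1).2
      have h4 := Finset.disjoint_insert_left.mp h3
      refine ⟨hB S hS3, h1 ι H e N hS I V t ht b hb S h4.1 h4.2 ?_⟩
      intro h5
      exact hS2 (mIcc' h5 h3)
    · have h3 := cSd (Icc ∅ (insert b (t.Ψ b))ᶜ \ Icc (t.Φ b) (insert b (t.Ψ b))ᶜ) B
      have h4 := cSd (Icc ∅ (insert b (t.Ψ b))ᶜ) (Icc (t.Φ b) (insert b (t.Ψ b))ᶜ)
      rw [c1, c2] at h4
      have h5 : (2 : ℝ) ^ Fintype.card ι / 2 ^ (t.φ + (t.ψ + 1)) ≤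
          2 ^ Fintype.card ι / 2 ^ (t.ψ + 2) := by
        apply div_le_div_of_nonneg_left hpos.le (by positivity)
        exact pow_le_pow_right₀ (by norm_num) (by omega)
      have h6 : (2 : ℝ) ^ Fintype.card ι / 2 ^ (t.ψ + 1) =
          2 * (2 ^ Fintype.card ι / 2 ^ (t.ψ + 2)) := by
        rw [pow_succ (2 : ℝ) (t.ψ + 1)]
        field_simp
      have h7 : (2 : ℝ) ^ Fintype.card ι * w ≤ 2 ^ Fintype.card ι / 2 ^ (t.ψ + 2) := by
        rw [div_eq_mul_one_div]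
        exact mul_le_mul_of_nonneg_left hw hpos.le
      linarith
  · have hcY : (insert b (k.Ψ b)).card = k.ψ + 1 := by
      rw [card_insert_of_notMem (hk.nΨ b hb), hk.kΨ b hb]
    have hdj : Disjoint (k.Φ b) (insert b (k.Ψ b)) := by
      rw [Finset.disjoint_insert_right]
      exact ⟨hk.nΦ b hb, hk.dj b hb⟩
    have c2 := cIcc (k.Φ b) (insert b (k.Ψ b)) hdj
    rw [hcY, hk.kΦ b hb] at c2
    refine ⟨Icc (k.Φ b) (insert b (k.Ψ b))ᶜ \ B, ?_, ?_⟩
    · intro S hS'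
      rw [mem_sdiff] at hS'
      obtain ⟨hS1, hS3⟩ := hS'
      have h3 := mIcc hS1
      have h4 := Finset.disjoint_insert_left.mp h3.2
      have h5 := hB S hS3
      exact ⟨h5, h2 ι H e N hS I V s hL t k ht hk htk b hb S h4.1 h3.1 h4.2 h5.2⟩
    · have h3 := cSd (Icc (k.Φ b) (insert b (k.Ψ b))ᶜ) B
      rw [c2] at h3
      have h6 : k.φ + (k.ψ + 1) = 1 + k.φ + k.ψ := by omega
      rw [h6] at h3
      have h7 : (2 : ℝ) ^ Fintype.card ι * w ≤ 2 ^ Fintype.card ι / 2 ^ (1 + k.φ + k.ψ) := by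
        rw [div_eq_mul_one_div]
        exact mul_le_mul_of_nonneg_left hw hpos.le
      linarith

end

end JTot

open JTot in
/-- The total count. -/
theorem prfTot (hA : S_atyp) (hC : S_cnt) (h1 : S_regI) (h2 : S_regII) : S_tot := by
  intro s η hη
  obtain ⟨M₀, hM₀⟩ := hA s η hη
  refine ⟨max M₀ 1, ?_⟩
  intro ι H _ _ _ e N hS I V hL hM r T hT hlt w hw
  have hM1 : M₀ ≤ I.card := le_trans (le_max_left _ _) hM
  have hM2 : 1 ≤ I.card := le_trans (le_max_right _ _) hM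
  obtain ⟨b, hb⟩ := Finset.card_pos.mp hM2
  have hB0 := hM₀ ι I V b hL hM1
  obtain ⟨B, hB1, hB2⟩ : ∃ B : Finset (Finset ι), (∀ S, S ∉ B → Typ I V b S) ∧
      (B.card : ℝ) ≤ η * 2 ^ Fintype.card ι := by
    refine ⟨_, ?_, hB0⟩
    intro S hS'
    by_contra hcon
    apply hS'
    simp only [Finset.mem_filter, Finset.mem_univ, true_and]
    exact hcon
  have hex : ∀ j, ∃ F : Finset (Finset ι), j < r →
      ((∀ S ∈ F, Typ I V b S ∧ ¬ MM e ((T j).c + sg e S - e b)) ∧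
      2 ^ Fintype.card ι * w j - B.card ≤ (F.card : ℝ)) := by
    intro j
    by_cases hj : j < r
    · obtain ⟨F, hF⟩ := one h1 h2 hS hL hb B hB1 (T j) (hT j hj) (w j) (hw j hj)
      exact ⟨F, fun _ => hF⟩
    · exact ⟨∅, fun h => absurd h hj⟩
  choose F hF using hex
  have h3 := hC ι H e N hS I V s hL r T hT hlt b hb F (fun j hj => (hF j hj).1)
  have hι : 1 ≤ Fintype.card ι := Fintype.card_pos_iff.mpr ⟨b⟩
  have h4 : ((2 : ℝ) ^ (Fintype.card ι - 1) + ∑ j ∈ range r, ((F j).card : ℝ)) ≤ N := by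
    exact_mod_cast h3
  have h5 : (2 : ℝ) ^ Fintype.card ι = 2 * 2 ^ (Fintype.card ι - 1) := by
    rw [← pow_succ']
    congr 1
    omega
  have h6 : ∑ j ∈ range r, (2 ^ Fintype.card ι * w j - η * 2 ^ Fintype.card ι) ≤
      ∑ j ∈ range r, ((F j).card : ℝ) := by
    refine Finset.sum_le_sum fun j hj => ?_
    have := (hF j (Finset.mem_range.mp hj)).2
    linarith
  rw [Finset.sum_sub_distrib, ← Finset.mul_sum, Finset.sum_const, Finset.card_range,
    nsmul_eq_mul] at h6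
  have h7 : (2 : ℝ) ^ Fintype.card ι * (1 / 2 + ∑ j ∈ range r, w j - r * η) =
      2 ^ (Fintype.card ι - 1) + (2 ^ Fintype.card ι * ∑ j ∈ range r, w j -
        r * (η * 2 ^ Fintype.card ι)) := by
    rw [h5]
    ring
  rw [h7]
  linarith

end Pool.Agent.Work.MP_2a6590_nt.H97B
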