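import Pool.Agent.Work.MP_2a6590_nt.H97B.Tools

/-!
# MP_2a6590_nt, block B: sizes of the sets of pairs and triples
-/

namespace Pool.Agent.Work.MP_2a6590_nt.H97B

open Finset Pool.Agent.Work.MP_2a6590_nt.H97

namespace JTri

variable {ι : Type} [DecidableEq ι]

theorem mem_XX {I : Finset ι} {A C : ι → Finset ι} {S : Finset ι} {a : ι} :
    a ∈ XX I A C S ↔ a ∈ I ∧ a ∈ S ∧ Disjoint (A a) S ∧ C a ⊆ S := by
  unfold XX
  rw [mem_filter]

theorem disj {A C : ι → Finset ι} {a b : ι} (hab : a ≠ b)
    (hV : Disjoint (Vu A C a) (Vu A C b)) (ha : a ∉ A a ∧ a ∉ C a ∧ Disjoint (A a) (C a))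
    (hb : b ∉ A b ∧ b ∉ C b ∧ Disjoint (A b) (C b)) :
    Disjoint (insert a (C a ∪ A b)) (insert b (A a ∪ C b)) := by
  rw [Finset.disjoint_left] at hV
  have hV' : ∀ x, x ∈ insert a (A a ∪ C a) → x ∈ insert b (A b ∪ C b) → False :=
    fun x h1 h2 => hV h1 h2
  have h1 := Finset.disjoint_left.mp ha.2.2
  have h2 := Finset.disjoint_left.mp hb.2.2
  rw [Finset.disjoint_left]
  intro x hx hx'
  simp only [mem_insert, mem_union] at hx hx' hV'
  rcases hx with rfl | hx | hx
  · rcases hx' with h | h | h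
    · exact hab h
    · exact ha.1 h
    · exact hV' x (Or.inl rfl) (Or.inr (Or.inr h))
  · rcases hx' with rfl | h | h
    · exact hV' x (Or.inr (Or.inr hx)) (Or.inl rfl)
    · exact h1 h hx
    · exact hV' x (Or.inr (Or.inr hx)) (Or.inr (Or.inr h))
  · rcases hx' with rfl | h | h
    · exact hb.1 hx
    · exact hV' x (Or.inr (Or.inl h)) (Or.inr (Or.inl hx))
    · exact h2 hx h

variable [Fintype ι]

theorem fib {I : Finset ι} {A C : ι → Finset ι} {s : ℕ} (hL : Loc I (Vu A C) s)
    (hI : ∀ a ∈ I, a ∉ A a ∧ a ∉ C a ∧ Disjoint (A a) (C a)) {a b : ι} (ha : a ∈ I) (hb : b ∈ I)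
    (hab : a ≠ b) :
    2 ^ Fintype.card ι ≤ 4 ^ s * ((Tri I A C).filter fun p => p.2 = (a, b)).card := by
  have hV := hL.disj a ha b hb hab
  have hd := disj hab hV (hI a ha) (hI b hb)
  set L := insert a (C a ∪ A b) with hLd
  set L' := insert b (A a ∪ C b) with hLd'
  have hLU : L ⊆ L'ᶜ := by
    intro x hx
    rw [mem_compl]
    exact Finset.disjoint_left.mp hd hx
  have hsub : (Icc L L'ᶜ).image (fun S => (S, (a, b))) ⊆
      (Tri I A C).filter fun p => p.2 = (a, b) := by
    intro p hp
    rw [mem_image] at hp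
    obtain ⟨S, hS, rfl⟩ := hp
    rw [mem_Icc] at hS
    obtain ⟨h1, h2⟩ := hS
    have h1 : L ⊆ S := h1
    have h2 : S ⊆ L'ᶜ := h2
    rw [mem_filter]
    refine ⟨?_, rfl⟩
    unfold Tri
    rw [mem_filter]
    refine ⟨mem_univ _, ?_, ?_⟩
    · refine mem_XX.mpr ⟨ha, h1 (by rw [hLd]; exact mem_insert_self _ _), ?_, ?_⟩
      · rw [Finset.disjoint_left]
        intro x hx hxS
        have := h2 hxS
        rw [mem_compl] at this
        exact this (by rw [hLd', mem_insert, mem_union]; exact Or.inr (Or.inl hx))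
      · intro x hx
        exact h1 (by rw [hLd, mem_insert, mem_union]; exact Or.inr (Or.inl hx))
    · refine mem_XX.mpr ⟨hb, ?_, ?_, ?_⟩
      · rw [mem_compl]
        intro hbS
        have := h2 hbS
        rw [mem_compl] at this
        exact this (by rw [hLd']; exact mem_insert_self _ _)
      · rw [Finset.disjoint_left]
        intro x hx hxS
        rw [mem_compl] at hxS
        exact hxS (h1 (by rw [hLd, mem_insert, mem_union]; exact Or.inr (Or.inr hx)))
      · intro x hx
        rw [mem_compl]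
        intro hxS
        have := h2 hxS
        rw [mem_compl] at this
        exact this (by rw [hLd', mem_insert, mem_union]; exact Or.inr (Or.inr hx))
  have hcard := Finset.card_le_card hsub
  rw [Finset.card_image_of_injective _ (fun S T h => (Prod.mk.inj h).1),
    Finset.card_Icc_finset hLU, Finset.card_compl] at hcard
  have hun : L.card + L'.card ≤ 2 * s := by
    rw [← Finset.card_union_of_disjoint hd]
    have h3 : L ∪ L' ⊆ Vu A C a ∪ Vu A C b := by
      intro x hx
      simp only [hLd, hLd', mem_union, mem_insert, Vu] at hx ⊢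
      tauto
    calc (L ∪ L').card ≤ (Vu A C a ∪ Vu A C b).card := Finset.card_le_card h3
      _ ≤ (Vu A C a).card + (Vu A C b).card := Finset.card_union_le _ _
      _ ≤ s + s := Nat.add_le_add (hL.card a ha) (hL.card b hb)
      _ = 2 * s := by ring
  have h4 : (4 : ℕ) ^ s = 2 ^ (2 * s) := by
    rw [pow_mul]
    norm_num
  calc 2 ^ Fintype.card ι ≤ 2 ^ (2 * s + (Fintype.card ι - L'.card - L.card)) :=
        Nat.pow_le_pow_right (by norm_num) (by omega)
    _ = 4 ^ s * 2 ^ (Fintype.card ι - L'.card - L.card) := by rw [h4, pow_add]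
    _ ≤ _ := Nat.mul_le_mul_left _ hcard

end JTri

open JTri in
theorem prfTri : S_tri := by
  intro ι _ _ I A C s hL hI
  have hT : Tri I A C ⊆ (univ : Finset (Finset ι)) ×ˢ (I ×ˢ I) := by
    intro p hp
    unfold Tri at hp
    rw [mem_filter] at hp
    rw [mem_product, mem_product]
    exact ⟨mem_univ _, (mem_XX.mp hp.2.1).1, (mem_XX.mp hp.2.2).1⟩
  refine ⟨?_, ?_, ?_⟩
  · have hP : Prs I A C ⊆ (univ : Finset (Finset ι)) ×ˢ I := by
      intro p hp
      unfold Prs at hp
      rw [mem_filter] at hp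
      rw [mem_product]
      exact ⟨mem_univ _, (mem_XX.mp hp.2).1⟩
    calc (Prs I A C).card ≤ ((univ : Finset (Finset ι)) ×ˢ I).card := Finset.card_le_card hP
      _ = I.card * 2 ^ Fintype.card ι := by
        rw [Finset.card_product, Finset.card_univ, Fintype.card_finset, mul_comm]
  · calc (Tri I A C).card ≤ ((univ : Finset (Finset ι)) ×ˢ (I ×ˢ I)).card :=
          Finset.card_le_card hT
      _ = I.card ^ 2 * 2 ^ Fintype.card ι := by
        rw [Finset.card_product, Finset.card_product, Finset.card_univ, Fintype.card_finset]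
        ring
  · have h1 : (Tri I A C).card = ∑ q ∈ I ×ˢ I, ((Tri I A C).filter fun p => p.2 = q).card :=
      Finset.card_eq_sum_card_fiberwise fun p hp => (mem_product.mp (hT hp)).2
    have h2 : I.offDiag ⊆ I ×ˢ I := by
      intro q hq
      rw [mem_offDiag] at hq
      exact mem_product.mpr ⟨hq.1, hq.2.1⟩
    calc I.card * (I.card - 1) * 2 ^ Fintype.card ι
        = ∑ q ∈ I.offDiag, 2 ^ Fintype.card ι := by
          rw [Finset.sum_const, Finset.offDiag_card, smul_eq_mul, Nat.mul_sub, mul_one]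
      _ ≤ ∑ q ∈ I.offDiag, 4 ^ s * ((Tri I A C).filter fun p => p.2 = q).card := by
          refine Finset.sum_le_sum fun q hq => ?_
          rw [mem_offDiag] at hq
          exact fib hL hI hq.1 hq.2.1 hq.2.2
      _ ≤ ∑ q ∈ I ×ˢ I, 4 ^ s * ((Tri I A C).filter fun p => p.2 = q).card :=
          Finset.sum_le_sum_of_subset h2
      _ = 4 ^ s * (Tri I A C).card := by rw [h1, Finset.mul_sum]

end Pool.Agent.Work.MP_2a6590_nt.H97B
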