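import Pool.Agent.Work.MP_2a6590_nt.H97B.Tools

/-!
# MP_2a6590_nt, block B: the system of a valid set
-/

namespace Pool.Agent.Work.MP_2a6590_nt.H97B

open Finset Pool.Agent.Work.MP_2a6590_nt.H97

namespace JSys

variable {ι G : Type} [Fintype ι] [AddCommGroup G]

theorem val_fst (a : ι → G) (m : ι → ℕ) :
    (val (fun i => ((1 : ℤ), a i)) m).1 = ((∑ i, m i : ℕ) : ℤ) := by
  unfold H97.val
  rw [Prod.fst_sum]
  push_cast
  refine Finset.sum_congr rfl fun i _ => ?_
  simp

theorem val_snd (a : ι → G) (m : ι → ℕ) :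
    (val (fun i => ((1 : ℤ), a i)) m).2 = val a m := by
  unfold H97.val
  rw [Prod.snd_sum]
  refine Finset.sum_congr rfl fun i _ => ?_
  simp

omit [Fintype ι] in
theorem sg_fst (a : ι → G) (S : Finset ι) :
    (sg (fun i => ((1 : ℤ), a i)) S).1 = (S.card : ℤ) := by
  unfold H97.sg
  rw [Prod.fst_sum]
  simp

omit [Fintype ι] in
theorem sg_snd (a : ι → G) (S : Finset ι) :
    (sg (fun i => ((1 : ℤ), a i)) S).2 = sg a S := by
  unfold H97.sg
  rw [Prod.snd_sum]

theorem uni {a : ι → G} (hV : Vd a) (m : ι → ℕ)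
    (h : val (fun i => ((1 : ℤ), a i)) m = sg (fun i => ((1 : ℤ), a i)) univ) (i : ι) :
    m i = 1 := by
  have h1 := congrArg Prod.fst h
  have h2 := congrArg Prod.snd h
  rw [val_fst, sg_fst] at h1
  rw [val_snd, sg_snd] at h2
  refine hV m ?_ h2 i
  rw [Finset.card_univ] at h1
  exact_mod_cast h1

/-- Adding units. -/
theorem MM_add {H : Type} [AddCommGroup H] [DecidableEq ι] {e : ι → H} {w : H} (h : MM e w)
    (b : ι) (k : ℕ) : MM e (w + k • e b) := by
  induction k with
  | zero => simpa using h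
  | succ k ih =>
    obtain ⟨m, hm⟩ := ih
    refine ⟨m + un b, ?_⟩
    rw [val_add, hm, val_un, succ_nsmul, add_assoc]

theorem aux [DecidableEq ι] (a : ι → G) (b : ι) {w w' : ℤ × G}
    (hw : MM (fun i => ((1 : ℤ), a i)) w)
    (hw' : ¬ MM (fun i => ((1 : ℤ), a i)) (w' - ((1 : ℤ), a b)))
    (h : w.2 - w.1 • a b = w'.2 - w'.1 • a b) : w'.1 ≤ w.1 := by
  by_contra hcon
  push Not at hcon
  obtain ⟨k, hk⟩ : ∃ k : ℕ, w'.1 - w.1 - 1 = (k : ℤ) :=
    ⟨(w'.1 - w.1 - 1).toNat, by omega⟩
  apply hw'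
  have h1 := MM_add hw b k
  have h2 : w + k • ((1 : ℤ), a b) = w' - ((1 : ℤ), a b) := by
    refine Prod.ext ?_ ?_
    · simp only [Prod.fst_add, Prod.smul_fst, Prod.fst_sub, nsmul_eq_mul, mul_one]
      omega
    · simp only [Prod.snd_add, Prod.smul_snd, Prod.snd_sub]
      have h3 : w'.2 = w.2 + (w'.1 - w.1) • a b := by
        rw [sub_smul]
        rw [sub_eq_sub_iff_add_eq_add] at h
        rw [← add_sub_assoc, h]
        abel
      have h4 : w'.1 - w.1 = (k : ℤ) + 1 := by omega
      rw [h3, h4, add_smul, one_smul, natCast_zsmul]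
      abel
  rw [← h2]
  exact h1

end JSys

theorem prfSys : S_sys := by
  classical
  intro N hN A hV
  have hNZ : NeZero N := ⟨by omega⟩
  refine ⟨?_, ?_, ?_, ?_⟩
  · intro m h i
    exact JSys.uni hV m h i
  · intro b W hW
    have h1 : W.card ≤ (univ : Finset (ZMod N)).card := by
      refine Finset.card_le_card_of_injOn (fun w : ℤ × ZMod N => w.2 - w.1 • (b : ZMod N))
        (fun _ _ => Finset.mem_coe.mpr (Finset.mem_univ _)) ?_
      intro w hw w' hw' h
      have hw1 := hW w hw
      have hw2 := hW w' hw'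
      have h3 := JSys.aux (fun a : A => (a : ZMod N)) b hw1.1 hw2.2 h
      have h4 := JSys.aux (fun a : A => (a : ZMod N)) b hw2.1 hw1.2 h.symm
      have h5 : w.1 = w'.1 := le_antisymm h4 h3
      refine Prod.ext h5 ?_
      simp only at h
      rw [h5] at h
      exact sub_left_injective h
    rwa [Finset.card_univ, ZMod.card] at h1
  · intro i j k h1 h2
    by_contra hcon
    push Not at hcon
    obtain ⟨hij, hik, hjk⟩ := hcon
    have h1' : 2 • (i : ZMod N) = 2 • (j : ZMod N) := congrArg Prod.snd h1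
    have h2' : 2 • (i : ZMod N) = 2 • (k : ZMod N) := congrArg Prod.snd h2
    have h := IsAddCyclic.card_nsmul_eq_zero_le (α := ZMod N) (n := 2) (by norm_num)
    have h3 : ({i, j, k} : Finset A).card = 3 := by
      rw [Finset.card_eq_three]
      exact ⟨i, j, k, hij, hik, hjk, rfl⟩
    have h4 : ({i, j, k} : Finset A).card ≤
        (univ.filter fun a : ZMod N => 2 • a = 0).card := by
      refine Finset.card_le_card_of_injOn (fun b : A => (b : ZMod N) - i) ?_ ?_
      · intro b hb
        simp only [Finset.coe_insert, Finset.coe_singleton, Set.mem_insert_iff,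
          Set.mem_singleton_iff] at hb
        rw [Finset.mem_coe, Finset.mem_filter]
        refine ⟨Finset.mem_univ _, ?_⟩
        rw [smul_sub, sub_eq_zero]
        rcases hb with rfl | rfl | rfl
        · rfl
        · exact h1'.symm
        · exact h2'.symm
      · intro b _ b' _ e
        exact Subtype.ext (sub_left_injective e)
    omega
  · exact ⟨AddMonoidHom.fst ℤ (ZMod N), fun i => rfl⟩

end Pool.Agent.Work.MP_2a6590_nt.H97B
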