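import Pool.Agent.Work.MP_2a6590_nt.H97B.I.Desc

/-!
# MP_2a6590_nt, block B: paths of types and the main estimate
-/

namespace Pool.Agent.Work.MP_2a6590_nt.H97B

open Finset Pool.Agent.Work.MP_2a6590_nt.H97

namespace JMain

variable {ι H : Type} [DecidableEq ι]

/-- The first `l` points of a path. -/
def Ys (y : ℕ → ι → ι) (l : ℕ) (a : ι) : Finset ι := (range l).image fun i => y i a

theorem mem_Ys {y : ℕ → ι → ι} {l : ℕ} {a x : ι} : x ∈ Ys y l a ↔ ∃ i < l, y i a = x := by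
  unfold Ys
  rw [Finset.mem_image]
  constructor
  · rintro ⟨i, hi, h⟩
    exact ⟨i, Finset.mem_range.mp hi, h⟩
  · rintro ⟨i, hi, h⟩
    exact ⟨i, Finset.mem_range.mpr hi, h⟩

theorem Ys_mono (y : ℕ → ι → ι) {l l' : ℕ} (h : l ≤ l') (a : ι) : Ys y l a ⊆ Ys y l' a := by
  intro x hx
  rw [mem_Ys] at hx ⊢
  obtain ⟨i, hi, e⟩ := hx
  exact ⟨i, by omega, e⟩

theorem Ys_succ (y : ℕ → ι → ι) (l : ℕ) (a : ι) : Ys y (l + 1) a = insert (y l a) (Ys y l a) := by
  ext x
  rw [Finset.mem_insert, mem_Ys, mem_Ys]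
  constructor
  · rintro ⟨i, hi, e⟩
    by_cases h : i = l
    · left; rw [← e, h]
    · exact Or.inr ⟨i, by omega, e⟩
  · rintro (h | ⟨i, hi, e⟩)
    · exact ⟨l, by omega, h.symm⟩
    · exact ⟨i, by omega, e⟩

theorem Ys_congr {y y' : ℕ → ι → ι} {l : ℕ} (h : ∀ i < l, y i = y' i) (a : ι) :
    Ys y l a = Ys y' l a := by
  ext x
  rw [mem_Ys, mem_Ys]
  constructor
  · rintro ⟨i, hi, e⟩
    exact ⟨i, hi, by rw [← h i hi]; exact e⟩
  · rintro ⟨i, hi, e⟩
    exact ⟨i, hi, by rw [h i hi]; exact e⟩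

theorem Ys_card (y : ℕ → ι → ι) (l : ℕ) (a : ι) : (Ys y l a).card ≤ l := by
  unfold Ys
  refine Finset.card_image_le.trans ?_
  rw [Finset.card_range]

variable [AddCommGroup H]

/-- A path of types. -/
structure Path (e : ι → H) (I : Finset ι) (V : ι → Finset ι) (l : ℕ) (T : ℕ → TyD ι H)
    (y : ℕ → ι → ι) : Prop where
  ty : ∀ j < l, IsTy e I V (T j)
  mem : ∀ j < l, ∀ a ∈ I, y j a ∈ (T j).Φ a
  sub : ∀ j < l, ∀ a ∈ I, (T j).Ψ a ⊆ Ys y j a
  dis : ∀ j < l, ∀ a ∈ I, Disjoint ((T j).Φ a) (Ys y j a)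

theorem Path.mono {e : ι → H} {I I' : Finset ι} {V V' : ι → Finset ι} {l : ℕ}
    {T : ℕ → TyD ι H} {y : ℕ → ι → ι} (h : Path e I V l T y) (hI : I' ⊆ I)
    (hV : ∀ a ∈ I', V a ⊆ V' a) : Path e I' V' l T y :=
  ⟨fun j hj => (h.ty j hj).mono hI hV, fun j hj a ha => h.mem j hj a (hI ha),
    fun j hj a ha => h.sub j hj a (hI ha), fun j hj a ha => h.dis j hj a (hI ha)⟩

theorem Path.inV {e : ι → H} {I : Finset ι} {V : ι → Finset ι} {l : ℕ}
    {T : ℕ → TyD ι H} {y : ℕ → ι → ι} (h : Path e I V l T y) :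
    ∀ a ∈ I, Ys y l a ⊆ V a ∧ a ∉ Ys y l a := by
  intro a ha
  constructor
  · intro x hx
    rw [mem_Ys] at hx
    obtain ⟨i, hi, rfl⟩ := hx
    exact (h.ty i hi).sΦ a ha (h.mem i hi a ha)
  · intro hx
    rw [mem_Ys] at hx
    obtain ⟨i, hi, e⟩ := hx
    apply (h.ty i hi).nΦ a ha
    have := h.mem i hi a ha
    rwa [e] at this

theorem Path.ψ_le {e : ι → H} {I : Finset ι} {V : ι → Finset ι} {l : ℕ}
    {T : ℕ → TyD ι H} {y : ℕ → ι → ι} (h : Path e I V l T y) (hI : I.Nonempty) {j : ℕ}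
    (hj : j < l) : (T j).ψ ≤ j := by
  obtain ⟨a, ha⟩ := hI
  rw [← (h.ty j hj).kΨ a ha]
  exact (Finset.card_le_card (h.sub j hj a ha)).trans (Ys_card y j a)

theorem Path.φ_pos {e : ι → H} {I : Finset ι} {V : ι → Finset ι} {l : ℕ}
    {T : ℕ → TyD ι H} {y : ℕ → ι → ι} (h : Path e I V l T y) (hI : I.Nonempty) {j : ℕ}
    (hj : j < l) : 0 < (T j).φ := by
  obtain ⟨a, ha⟩ := hI
  rw [← (h.ty j hj).kΦ a ha]
  exact Finset.card_pos.mpr ⟨_, h.mem j hj a ha⟩

/-- A type at the end of a path is larger than all the types of the path. -/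
theorem Path.lt_new [Fintype ι] (hC : S_conf) {e : ι → H} {N : ℕ} (hS : Sys e N) {I : Finset ι}
    {V : ι → Finset ι} {s : ℕ} (hV : Loc I V s) (hI : 2 ≤ I.card) {l : ℕ} {T : ℕ → TyD ι H}
    {y : ℕ → ι → ι} (h : Path e I V l T y) {k : TyD ι H} (hk : IsTy e I V k) {m : ℕ}
    (hkΦ : ∀ a ∈ I, Disjoint (k.Φ a) (Ys y m a)) {j : ℕ} (hj : j < l) (hjm : j < m) :
    TLt I (T j) k := by
  have hdis : ∀ a ∈ I, Disjoint ((T j).Ψ a) (k.Φ a) := by
    intro a ha
    exact (Disjoint.mono_right ((h.sub j hj a ha).trans (Ys_mono y hjm.le a)) (hkΦ a ha)).symm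
  rcases hC ι H e N hS I V s hV hI (T j) k (h.ty j hj) hk hdis with h1 | h1
  · exfalso
    obtain ⟨a, ha⟩ := Finset.card_pos.mp (show 0 < I.card by omega)
    have h2 := h.mem j hj a ha
    rw [(h1 a ha).1] at h2
    exact (Finset.disjoint_left.mp (hkΦ a ha)) h2 (mem_Ys.mpr ⟨j, hjm, rfl⟩)
  · exact fun a ha => ⟨hdis a ha, h1 a ha⟩

theorem Path.lt [Fintype ι] (hC : S_conf) {e : ι → H} {N : ℕ} (hS : Sys e N) {I : Finset ι}
    {V : ι → Finset ι} {s : ℕ} (hV : Loc I V s) (hI : 2 ≤ I.card) {l : ℕ} {T : ℕ → TyD ι H}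
    {y : ℕ → ι → ι} (h : Path e I V l T y) {j j' : ℕ} (hj' : j' < l) (hjj : j < j') :
    TLt I (T j) (T j') :=
  h.lt_new hC hS hV hI (h.ty j' hj') (h.dis j' hj') (by omega) hjj

theorem Path.cmp [Fintype ι] (hC : S_conf) {e : ι → H} {N : ℕ} (hS : Sys e N) {I : Finset ι}
    {V : ι → Finset ι} {s : ℕ} (hV : Loc I V s) (hI : 2 ≤ I.card) {l : ℕ} {T : ℕ → TyD ι H}
    {y : ℕ → ι → ι} (h : Path e I V l T y) :
    ∀ j < l, ∀ j' < l, j ≠ j' → TLt I (T j) (T j') ∨ TLt I (T j') (T j) := by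
  intro j hj j' hj' hne
  rcases Nat.lt_or_gt_of_ne hne with h1 | h1
  · exact Or.inl (h.lt hC hS hV hI hj' h1)
  · exact Or.inr (h.lt hC hS hV hI hj h1)

/-- Extension of a path. -/
theorem Path.ext {e : ι → H} {I : Finset ι}
    {V : ι → Finset ι} {l : ℕ} {T : ℕ → TyD ι H} {y : ℕ → ι → ι} (h : Path e I V l T y)
    {k : TyD ι H} (hk : IsTy e I V k) (hkY : ∀ a ∈ I, k.Ψ a ⊆ Ys y l a ∧ Disjoint (k.Φ a) (Ys y l a))
    (hφ : 0 < k.φ) : ∃ T' y', Path e I V (l + 1) T' y' := by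
  classical
  have hex : ∀ a ∈ I, ∃ x, x ∈ k.Φ a := by
    intro a ha
    have : 0 < (k.Φ a).card := by rw [hk.kΦ a ha]; exact hφ
    exact Finset.card_pos.mp this
  set z : ι → ι := fun a => if ha : a ∈ I then (hex a ha).choose else a with hz
  have hz1 : ∀ a ∈ I, z a ∈ k.Φ a := by
    intro a ha
    rw [hz]
    simp only
    rw [dif_pos ha]
    exact (hex a ha).choose_spec
  set T' : ℕ → TyD ι H := fun j => if j = l then k else T j with hT'
  set y' : ℕ → ι → ι := fun j => if j = l then z else y j with hy'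
  have eT : T' l = k := by rw [hT']; simp
  have eT' : ∀ j < l, T' j = T j := by
    intro j hj
    rw [hT']
    simp only
    rw [if_neg (by omega)]
  have ey : y' l = z := by rw [hy']; simp
  have ey' : ∀ j < l, y' j = y j := by
    intro j hj
    rw [hy']
    simp only
    rw [if_neg (by omega)]
  have eY : ∀ j ≤ l, ∀ a, Ys y' j a = Ys y j a := fun j hj a =>
    Ys_congr (fun i hi => ey' i (by omega)) a
  refine ⟨T', y', ?_, ?_, ?_, ?_⟩
  · intro j hj
    by_cases h1 : j = l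
    · rw [h1, eT]; exact hk
    · rw [eT' j (by omega)]; exact h.ty j (by omega)
  · intro j hj a ha
    by_cases h1 : j = l
    · rw [h1, eT, ey]; exact hz1 a ha
    · rw [eT' j (by omega), ey' j (by omega)]; exact h.mem j (by omega) a ha
  · intro j hj a ha
    rw [eY j (by omega)]
    by_cases h1 : j = l
    · rw [h1, eT]; exact (hkY a ha).1
    · rw [eT' j (by omega)]; exact h.sub j (by omega) a ha
  · intro j hj a ha
    rw [eY j (by omega)]
    by_cases h1 : j = l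
    · rw [h1, eT]; exact (hkY a ha).2
    · rw [eT' j (by omega)]; exact h.dis j (by omega) a ha

/-- The last point of a path is changed. -/
theorem Path.change {e : ι → H} {I : Finset ι} {V : ι → Finset ι} {l : ℕ} {T : ℕ → TyD ι H}
    {y : ℕ → ι → ι} (h : Path e I V (l + 1) T y) (h2 : 2 ≤ (T l).φ) :
    ∃ y', Path e I V (l + 1) T y' ∧ (∀ a, Ys y' l a = Ys y l a) ∧ ∀ a ∈ I, y' l a ≠ y l a := by
  classical
  have hex : ∀ a ∈ I, ∃ x ∈ (T l).Φ a, x ≠ y l a := by
    intro a ha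
    have : 1 < ((T l).Φ a).card := by rw [(h.ty l (by omega)).kΦ a ha]; omega
    exact Finset.exists_mem_ne this (y l a)
  set z : ι → ι := fun a => if ha : a ∈ I then (hex a ha).choose else a with hz
  have hz1 : ∀ a ∈ I, z a ∈ (T l).Φ a ∧ z a ≠ y l a := by
    intro a ha
    rw [hz]
    simp only
    rw [dif_pos ha]
    exact (hex a ha).choose_spec
  set y' : ℕ → ι → ι := fun j => if j = l then z else y j with hy'
  have ey : y' l = z := by rw [hy']; simp
  have ey' : ∀ j < l, y' j = y j := by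
    intro j hj
    rw [hy']
    simp only
    rw [if_neg (by omega)]
  have eY : ∀ j ≤ l, ∀ a, Ys y' j a = Ys y j a := fun j hj a =>
    Ys_congr (fun i hi => ey' i (by omega)) a
  refine ⟨y', ⟨h.ty, ?_, ?_, ?_⟩, eY l le_rfl, ?_⟩
  · intro j hj a ha
    by_cases h1 : j = l
    · rw [h1, ey]; exact (hz1 a ha).1
    · rw [ey' j (by omega)]; exact h.mem j (by omega) a ha
  · intro j hj a ha
    rw [eY j (by omega)]
    exact h.sub j hj a ha
  · intro j hj a ha
    rw [eY j (by omega)]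
    exact h.dis j hj a ha
  · intro a ha
    rw [ey]
    exact (hz1 a ha).2

/-- The last point of a path belongs to `Ψ` of a larger type. -/
theorem Path.last [Fintype ι] (hC : S_conf) {e : ι → H} {N : ℕ} (hS : Sys e N) {I : Finset ι}
    {V : ι → Finset ι} {s : ℕ} (hV : Loc I V s) (hI : 2 ≤ I.card) {l : ℕ} {T : ℕ → TyD ι H}
    {y : ℕ → ι → ι} (h : Path e I V (l + 1) T y) {k : TyD ι H} (hk : IsTy e I V k)
    (hkY : ∀ a ∈ I, k.Ψ a ⊆ Ys y (l + 1) a ∧ Disjoint (k.Φ a) (Ys y (l + 1) a)) :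
    ∀ a ∈ I, y l a ∈ k.Ψ a := by
  intro a ha
  have h1 := (h.lt_new hC hS hV hI hk (fun a ha => (hkY a ha).2) (j := l) (by omega)
    (by omega) a ha).2
  rw [Finset.not_disjoint_iff] at h1
  obtain ⟨x, hx1, hx2⟩ := h1
  have h2 := (hkY a ha).1 hx2
  rw [Ys_succ, Finset.mem_insert] at h2
  rcases h2 with h2 | h2
  · rw [← h2]; exact hx2
  · exact absurd h2 ((Finset.disjoint_left.mp (h.dis l (by omega) a ha)) hx1)

theorem geo (l : ℕ) : ∑ j ∈ range l, (1 : ℝ) / 2 ^ (j + 2) = 1 / 2 - 1 / 2 ^ (l + 1) := by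
  induction l with
  | zero => norm_num
  | succ l ih =>
    rw [Finset.sum_range_succ, ih]
    rw [pow_succ (2 : ℝ) (l + 1)]
    ring

/-- The conclusion of the total count. -/
def TotM (σ : ℕ) (η : ℝ) (M : ℕ) : Prop := ∀ (ι H : Type) [Fintype ι]
  [DecidableEq ι] [AddCommGroup H] (e : ι → H) (N : ℕ), Sys e N → ∀ (I : Finset ι)
  (V : ι → Finset ι), Loc I V σ → M ≤ I.card → ∀ (r : ℕ) (T : ℕ → TyD ι H),
  (∀ j < r, IsTy e I V (T j)) →
  (∀ j < r, ∀ j' < r, j ≠ j' → TLt I (T j) (T j') ∨ TLt I (T j') (T j)) →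
  ∀ w : ℕ → ℝ, (∀ j < r, ((T j).φ ≠ 0 ∧ w j ≤ 1 / 2 ^ ((T j).ψ + 2)) ∨
    ∃ k : TyD ι H, IsTy e I V k ∧ TLt I (T j) k ∧ w j ≤ 1 / 2 ^ (1 + k.φ + k.ψ)) →
  2 ^ Fintype.card ι * (1 / 2 + ∑ j ∈ range r, w j - r * η) ≤ (N : ℝ)

/-- A path whose last type counts as much as all the types which could follow. -/
theorem Path.full [Fintype ι] (hC : S_conf) {σ M₀ : ℕ} {η : ℝ} (hM : TotM σ η M₀) {e : ι → H}
    {N : ℕ} (hS : Sys e N) {I : Finset ι} {V : ι → Finset ι} (hV : Loc I V σ)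
    (hI : 2 ≤ I.card) (hI₀ : M₀ ≤ I.card) {l : ℕ} {T : ℕ → TyD ι H}
    {y : ℕ → ι → ι} (h : Path e I V (l + 1) T y)
    (hlast : (T l).ψ + 2 ≤ l + 1 ∨ ∃ k : TyD ι H, IsTy e I V k ∧ TLt I (T l) k ∧
      1 + k.φ + k.ψ ≤ l + 1) :
    2 ^ Fintype.card ι * (1 - (l + 1) * η) ≤ (N : ℝ) := by
  have hne : I.Nonempty := Finset.card_pos.mp (by omega)
  have h1 := hM ι H e N hS I V hV hI₀ (l + 1) T h.ty (h.cmp hC hS hV hI)
    (fun j => if j = l then 1 / 2 ^ (l + 1) else 1 / 2 ^ (j + 2)) (by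
    intro j hj
    by_cases hjl : j = l
    · simp only [hjl, if_true]
      rcases hlast with h2 | ⟨k, hk1, hk2, hk3⟩
      · left
        refine ⟨(h.φ_pos hne (by omega)).ne', ?_⟩
        exact one_div_le_one_div_of_le (by positivity) (pow_le_pow_right₀ (by norm_num) h2)
      · right
        refine ⟨k, hk1, hk2, ?_⟩
        exact one_div_le_one_div_of_le (by positivity) (pow_le_pow_right₀ (by norm_num) hk3)
    · left
      simp only [hjl, if_false]
      refine ⟨(h.φ_pos hne hj).ne', ?_⟩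
      have := h.ψ_le hne hj
      exact one_div_le_one_div_of_le (by positivity) (pow_le_pow_right₀ (by norm_num) (by omega)))
  rw [Finset.sum_range_succ] at h1
  have h2 : ∑ j ∈ range l, (if j = l then (1 : ℝ) / 2 ^ (l + 1) else 1 / 2 ^ (j + 2)) =
      1 / 2 - 1 / 2 ^ (l + 1) := by
    rw [← geo l]
    refine Finset.sum_congr rfl fun j hj => ?_
    rw [Finset.mem_range] at hj
    rw [if_neg (by omega)]
  rw [h2] at h1
  simp only [if_true] at h1
  push_cast at h1
  have h3 : (1 : ℝ) / 2 + (1 / 2 - 1 / 2 ^ (l + 1) + 1 / 2 ^ (l + 1)) - (l + 1) * η =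
      1 - (l + 1) * η := by ring
  rw [h3] at h1
  exact h1

/-- **One step.** -/
theorem step (hD : S_desc) (hC : S_conf) (hT : S_tot) (ε : ℝ) (hε : 0 < ε) (l s : ℕ) :
    ∃ s' : ℕ, ∀ M : ℕ, ∃ M' : ℕ, ∀ (ι H : Type) [Fintype ι] [DecidableEq ι] [AddCommGroup H]
    (e : ι → H) (N : ℕ), Sys e N → (N : ℝ) < (1 - ε) * 2 ^ Fintype.card ι →
    ∀ (I : Finset ι) (V : ι → Finset ι) (T : ℕ → TyD ι H) (y : ℕ → ι → ι), Loc I V s →
    Path e I V l T y → M' ≤ I.card → ∃ (I' : Finset ι) (V' : ι → Finset ι) (T' : ℕ → TyD ι H)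
    (y' : ℕ → ι → ι), M ≤ I'.card ∧ Loc I' V' s' ∧ Path e I' V' (l + 1) T' y' := by
  obtain ⟨s₁, hs₁⟩ := hD s
  obtain ⟨s₂, hs₂⟩ := hD s₁
  refine ⟨max s₁ s₂, fun M => ?_⟩
  obtain ⟨M₀, hM₀⟩ := hT s₁ (ε / (l + 1)) (by positivity)
  obtain ⟨M₂, hM₂⟩ := hs₂ (max M 3)
  obtain ⟨M₁, hM₁⟩ := hs₁ (max (max M 3) (max M₀ M₂))
  refine ⟨M₁, ?_⟩
  intro ι H _ _ _ e N hS hN I V T y hV hP hI
  have h2n : (0 : ℝ) < 2 ^ Fintype.card ι := by positivity
  have hN' : N ≤ 2 ^ Fintype.card ι := by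
    have : (N : ℝ) ≤ 2 ^ Fintype.card ι := by nlinarith
    exact_mod_cast this
  obtain ⟨I₁, hI₁, hc₁, V₁, hV₁, hloc₁, k, hk, hkY⟩ :=
    hM₁ ι H e N hS hN' I V (Ys y l) hV hP.inV hI
  have hP₁ : Path e I₁ V₁ l T y := hP.mono hI₁ hV₁
  have c3 : 3 ≤ I₁.card := by
    refine le_trans ?_ hc₁
    exact (le_max_right M 3).trans (le_max_left _ _)
  have cM : M ≤ I₁.card := by
    refine le_trans ?_ hc₁
    exact (le_max_left M 3).trans (le_max_left _ _)
  have cM₀ : M₀ ≤ I₁.card := by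
    refine le_trans ?_ hc₁
    exact (le_max_left M₀ M₂).trans (le_max_right _ _)
  have cM₂ : M₂ ≤ I₁.card := by
    refine le_trans ?_ hc₁
    exact (le_max_right M₀ M₂).trans (le_max_right _ _)
  by_cases hφ : 0 < k.φ
  · obtain ⟨T', y', h⟩ := hP₁.ext hk hkY hφ
    exact ⟨I₁, V₁, T', y', cM, hloc₁.mono (Finset.Subset.refl _) (le_max_left _ _), h⟩
  · have hφ0 : k.φ = 0 := by omega
    have hΦ : ∀ a ∈ I₁, k.Φ a = ∅ := by
      intro a ha
      rw [← Finset.card_eq_zero, hk.kΦ a ha, hφ0]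
    cases l with
    | zero =>
      exfalso
      have hΨ : ∀ a ∈ I₁, k.Ψ a = ∅ := by
        intro a ha
        have h1 := (hkY a ha).1
        have h2 : Ys y 0 a = ∅ := by unfold Ys; simp
        rw [h2] at h1
        exact Finset.subset_empty.mp h1
      have h2e : ∀ a ∈ I₁, 2 • e a = k.c := by
        intro a ha
        have h1 := hk.eq a ha
        rw [hΦ a ha, hΨ a ha] at h1
        exact add_right_cancel h1
      obtain ⟨a, b, c, ha, hb, hc, hab, hac, hbc⟩ := Finset.two_lt_card_iff.mp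
        (show 2 < I₁.card by omega)
      rcases hS.tor a b c (by rw [h2e a ha, h2e b hb]) (by rw [h2e a ha, h2e c hc]) with h | h | h
      · exact hab h
      · exact hac h
      · exact hbc h
    | succ l =>
      have hlast := hP₁.last hC hS hloc₁ (by omega) hk hkY
      by_cases ht2 : 2 ≤ (T l).φ
      · -- change the last point
        obtain ⟨y', hP', hYY, hne⟩ := hP₁.change ht2
        obtain ⟨I₂, hI₂, hc₂, V₂, hV₂, hloc₂, k₂, hk₂, hkY₂⟩ :=
          hM₂ ι H e N hS hN' I₁ V₁ (Ys y' (l + 1)) hloc₁ hP'.inV cM₂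
        have hP₂ : Path e I₂ V₂ (l + 1) T y' := hP'.mono hI₂ hV₂
        have cM' : M ≤ I₂.card := (le_max_left _ _).trans hc₂
        have c3' : 3 ≤ I₂.card := (le_max_right _ _).trans hc₂
        by_cases hφ₂ : 0 < k₂.φ
        · obtain ⟨T', y'', h⟩ := hP₂.ext hk₂ hkY₂ hφ₂
          exact ⟨I₂, V₂, T', y'', cM', hloc₂.mono (Finset.Subset.refl _) (le_max_right _ _), h⟩
        · exfalso
          have hΦ₂ : ∀ a ∈ I₂, k₂.Φ a = ∅ := by
            intro a ha
            rw [← Finset.card_eq_zero, hk₂.kΦ a ha]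
            omega
          have hlast₂ := hP₂.last hC hS hloc₂ (by omega) hk₂ hkY₂
          have hk' : IsTy e I₂ V₂ k := hk.mono hI₂ hV₂
          obtain ⟨a, ha⟩ := Finset.card_pos.mp (show 0 < I₂.card by omega)
          rcases hC ι H e N hS I₂ V₂ _ hloc₂ (by omega) k k₂ hk' hk₂ (fun a ha => by
            rw [hΦ₂ a ha]; exact Finset.disjoint_empty_right _) with h1 | h1
          · have h2 := hlast₂ a ha
            rw [← (h1 a ha).2] at h2
            have h3 := (hkY a (hI₂ ha)).1 h2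
            rw [Ys_succ, Finset.mem_insert] at h3
            rcases h3 with h3 | h3
            · exact hne a (hI₂ ha) h3
            · have h4 := hP'.mem l (by omega) a (hI₂ ha)
              exact (Finset.disjoint_left.mp (hP₁.dis l (by omega) a (hI₂ ha))) h4 h3
          · apply h1 a ha
            rw [hΦ a (hI₂ ha)]
            exact Finset.disjoint_empty_left _
      · exfalso
        have hne : I₁.Nonempty := Finset.card_pos.mp (by omega)
        have ht1 : (T l).φ = 1 := by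
          have := hP₁.φ_pos hne (show l < l + 1 by omega)
          omega
        have hcon : ∀ hl : ((T l).ψ + 2 ≤ l + 1 ∨ ∃ k : TyD ι H, IsTy e I₁ V₁ k ∧
            TLt I₁ (T l) k ∧ 1 + k.φ + k.ψ ≤ l + 1), False := by
          intro hl
          have h1 := hP₁.full hC (l := l) hM₀ hS hloc₁ (by omega) cM₀ hl
          have h2 : ((l : ℝ) + 1) * (ε / (((l + 1 : ℕ) : ℝ) + 1)) ≤ ε := by
            push_cast
            rw [mul_div_assoc', div_le_iff₀ (by positivity)]
            nlinarith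
          nlinarith
        have hlt : TLt I₁ (T l) k := hP₁.lt_new hC hS hloc₁ (by omega) hk
          (fun a ha => (hkY a ha).2) (j := l) (by omega) (by omega)
        have hψk : k.ψ = l + 1 := by
          by_contra hcon1
          obtain ⟨a, ha⟩ := hne
          have h1 := (Finset.card_le_card (hkY a ha).1).trans (Ys_card y (l + 1) a)
          rw [hk.kΨ a ha] at h1
          exact hcon (Or.inr ⟨k, hk, hlt, by omega⟩)
        have hψt : (T l).ψ = l := by
          by_contra hcon1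
          have h1 := hP₁.ψ_le hne (show l < l + 1 by omega)
          exact hcon (Or.inl (by omega))
        have hΨk : ∀ a ∈ I₁, k.Ψ a = Ys y (l + 1) a := by
          intro a ha
          refine Finset.eq_of_subset_of_card_le (hkY a ha).1 ?_
          rw [hk.kΨ a ha, hψk]
          exact Ys_card y (l + 1) a
        have hΨt : ∀ a ∈ I₁, (T l).Ψ a = Ys y l a := by
          intro a ha
          refine Finset.eq_of_subset_of_card_le (hP₁.sub l (by omega) a ha) ?_
          rw [(hP₁.ty l (by omega)).kΨ a ha, hψt]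
          exact Ys_card y l a
        have hΦt : ∀ a ∈ I₁, (T l).Φ a = {y l a} := by
          intro a ha
          have h1 : ((T l).Φ a).card = 1 := by rw [(hP₁.ty l (by omega)).kΦ a ha, ht1]
          obtain ⟨x, hx⟩ := Finset.card_eq_one.mp h1
          have h2 := hP₁.mem l (by omega) a ha
          rw [hx, Finset.mem_singleton] at h2
          rw [hx, h2]
        have hyn : ∀ a ∈ I₁, y l a ∉ Ys y l a := fun a ha =>
          (Finset.disjoint_left.mp (hP₁.dis l (by omega) a ha)) (hP₁.mem l (by omega) a ha)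
        have h2e : ∀ a ∈ I₁, 2 • e (y l a) = k.c - (T l).c := by
          intro a ha
          have h1 := hk.eq a ha
          have h2 := (hP₁.ty l (by omega)).eq a ha
          rw [hΦ a ha, hΨk a ha, Ys_succ, sg_insert e (hyn a ha)] at h1
          rw [hΦt a ha, hΨt a ha] at h2
          have e0 : sg e (∅ : Finset ι) = 0 := by unfold sg; simp
          have e1 : sg e ({y l a} : Finset ι) = e (y l a) := by unfold sg; simp
          rw [e0, add_zero] at h1
          rw [e1] at h2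
          have h3 : (T l).c = 2 • e a + sg e (Ys y l a) - e (y l a) := by
            rw [h2]; abel
          rw [← h1, h3, two_smul, two_smul]
          abel
        have hinj : ∀ a ∈ I₁, ∀ b ∈ I₁, a ≠ b → y l a ≠ y l b := by
          intro a ha b hb hab e1
          have h1 := (hP₁.ty l (by omega)).sΦ a ha (hP₁.mem l (by omega) a ha)
          have h2 := (hP₁.ty l (by omega)).sΦ b hb (hP₁.mem l (by omega) b hb)
          rw [← e1] at h2
          exact (Finset.disjoint_left.mp (hloc₁.disj a ha b hb hab)) h1 h2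
        obtain ⟨a, b, c, ha, hb, hc, hab, hac, hbc⟩ := Finset.two_lt_card_iff.mp
          (show 2 < I₁.card by omega)
        rcases hS.tor (y l a) (y l b) (y l c) (by rw [h2e a ha, h2e b hb])
          (by rw [h2e a ha, h2e c hc]) with h | h | h
        · exact hinj a ha b hb hab h
        · exact hinj a ha c hc hac h
        · exact hinj b hb c hc hbc h

/-- Paths of every length. -/
theorem reach (hD : S_desc) (hC : S_conf) (hT : S_tot) (ε : ℝ) (hε : 0 < ε) (l : ℕ) :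
    ∃ s : ℕ, ∀ M : ℕ, ∃ n₀ : ℕ, ∀ (ι H : Type) [Fintype ι] [DecidableEq ι] [AddCommGroup H]
    (e : ι → H) (N : ℕ), Sys e N → (N : ℝ) < (1 - ε) * 2 ^ Fintype.card ι →
    n₀ ≤ Fintype.card ι → ∃ (I : Finset ι) (V : ι → Finset ι) (T : ℕ → TyD ι H)
    (y : ℕ → ι → ι), M ≤ I.card ∧ Loc I V s ∧ Path e I V l T y := by
  induction l with
  | zero =>
    refine ⟨1, fun M => ⟨M, ?_⟩⟩
    intro ι H _ _ _ e N hS hN hn
    refine ⟨univ, fun a => {a}, fun _ => ⟨0, fun _ => ∅, fun _ => ∅, 0, 0⟩, fun _ a => a, hn,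
      ⟨?_, ?_, ?_⟩, ⟨?_, ?_, ?_, ?_⟩⟩
    · intro a _
      exact Finset.mem_singleton_self a
    · intro a _
      exact (Finset.card_singleton a).le
    · intro a _ b _ hab
      exact Finset.disjoint_singleton.mpr hab
    · intro j hj; omega
    · intro j hj; omega
    · intro j hj; omega
    · intro j hj; omega
  | succ l ih =>
    obtain ⟨s, hs⟩ := ih
    obtain ⟨s', hs'⟩ := step hD hC hT ε hε l s
    refine ⟨s', fun M => ?_⟩
    obtain ⟨M', hM'⟩ := hs' M
    obtain ⟨n₀, hn₀⟩ := hs M'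
    refine ⟨n₀, ?_⟩
    intro ι H _ _ _ e N hS hN hn
    obtain ⟨I, V, T, y, hI, hV, hP⟩ := hn₀ ι H e N hS hN hn
    exact hM' ι H e N hS hN I V T y hV hP hI

end JMain

open JMain in
theorem prfMain (hD : S_desc) (hC : S_conf) (hT : S_tot) : S_main := by
  intro ε hε
  obtain ⟨D, hDε⟩ := exists_pow_lt_of_lt_one (show (0 : ℝ) < ε by exact hε)
    (show (1 / 2 : ℝ) < 1 by norm_num)
  obtain ⟨s, hs⟩ := reach hD hC hT ε hε D
  obtain ⟨M₀, hM₀⟩ := hT s (ε / (2 * (D + 1))) (by positivity)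
  obtain ⟨n₀, hn₀⟩ := hs (max M₀ 2)
  refine ⟨n₀, ?_⟩
  intro ι H _ _ _ e N hS hn
  by_contra hcon
  rw [not_le] at hcon
  obtain ⟨I, V, T, y, hI, hV, hP⟩ := hn₀ ι H e N hS hcon hn
  have hI2 : 2 ≤ I.card := (le_max_right _ _).trans hI
  have hne : I.Nonempty := Finset.card_pos.mp (by omega)
  have h1 := hM₀ ι H e N hS I V hV ((le_max_left _ _).trans hI) D T hP.ty
    (hP.cmp hC hS hV hI2) (fun j => 1 / 2 ^ (j + 2)) (by
      intro j hj
      left
      refine ⟨(hP.φ_pos hne hj).ne', ?_⟩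
      have := hP.ψ_le hne hj
      exact one_div_le_one_div_of_le (by positivity) (pow_le_pow_right₀ (by norm_num) (by omega)))
  rw [geo D] at h1
  have h2 : (D : ℝ) * (ε / (2 * (D + 1))) ≤ ε / 2 := by
    rw [mul_div_assoc', div_le_div_iff₀ (by positivity) (by positivity)]
    nlinarith
  have h3 : (1 : ℝ) / 2 ^ (D + 1) < ε / 2 := by
    have h4 : (1 : ℝ) / 2 ^ (D + 1) = (1 / 2) ^ D / 2 := by
      rw [pow_succ, div_pow, one_pow]
      field_simp
    rw [h4]
    linarith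
  have h4 : (0 : ℝ) < 2 ^ Fintype.card ι := by positivity
  nlinarith

end Pool.Agent.Work.MP_2a6590_nt.H97B
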