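import Pool.Agent.Work.MP_2a6590_nt.H97B.Tools

/-!
# MP_2a6590_nt, block B: the descent
-/

namespace Pool.Agent.Work.MP_2a6590_nt.H97B

open Finset Pool.Agent.Work.MP_2a6590_nt.H97

theorem Loc.mono {ι : Type} {I I' : Finset ι} {V : ι → Finset ι} {s s' : ℕ} (h : Loc I V s)
    (hI : I' ⊆ I) (hs : s ≤ s') : Loc I' V s' :=
  ⟨fun a ha => h.self a (hI ha), fun a ha => (h.card a (hI ha)).trans hs,
    fun a ha b hb => h.disj a (hI ha) b (hI hb)⟩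

theorem Loc.congr {ι : Type} {I : Finset ι} {V V' : ι → Finset ι} {s : ℕ} (h : Loc I V s)
    (hV : ∀ a ∈ I, V' a = V a) : Loc I V' s := by
  refine ⟨fun a ha => ?_, fun a ha => ?_, fun a ha b hb hab => ?_⟩
  · rw [hV a ha]; exact h.self a ha
  · rw [hV a ha]; exact h.card a ha
  · rw [hV a ha, hV b hb]; exact h.disj a ha b hb hab

theorem IsTy.mono {ι H : Type} [AddCommGroup H] {e : ι → H} {I I' : Finset ι}
    {V V' : ι → Finset ι} {t : TyD ι H} (h : IsTy e I V t) (hI : I' ⊆ I)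
    (hV : ∀ a ∈ I', V a ⊆ V' a) : IsTy e I' V' t :=
  ⟨fun a ha => h.eq a (hI ha), fun a ha => h.dj a (hI ha),
    fun a ha => (h.sΦ a (hI ha)).trans (hV a ha), fun a ha => (h.sΨ a (hI ha)).trans (hV a ha),
    fun a ha => h.nΦ a (hI ha), fun a ha => h.nΨ a (hI ha), fun a ha => h.kΦ a (hI ha),
    fun a ha => h.kΨ a (hI ha)⟩

theorem TLt.mono {ι H : Type} {I I' : Finset ι} {t t' : TyD ι H} (h : TLt I t t') (hI : I' ⊆ I) :
    TLt I' t t' := fun a ha => h a (hI ha)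

namespace JDesc

theorem half {ι : Type} (I : Finset ι) (p : ι → Prop) [DecidablePred p] (M : ℕ)
    (h : 2 * M ≤ I.card) : M ≤ (I.filter p).card ∨ M ≤ (I.filter fun a => ¬ p a).card := by
  have := Finset.card_filter_add_card_filter_not (s := I) p
  omega

/-- One application of the local type lemma. -/
theorem one (hL : S_lcl) (σ : ℕ) : ∃ σ' : ℕ, ∀ M : ℕ, ∃ M' : ℕ, ∀ (ι H : Type) [Fintype ι]
    [DecidableEq ι] [AddCommGroup H] (e : ι → H) (N : ℕ), Sys e N → N ≤ 2 ^ Fintype.card ι →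
    ∀ (I : Finset ι) (V Y : ι → Finset ι), Loc I V σ → (∀ a ∈ I, Y a ⊆ V a ∧ a ∉ Y a) →
    M' ≤ I.card → ∃ I₁ ⊆ I, M ≤ I₁.card ∧ ∃ V₁ : ι → Finset ι, (∀ a ∈ I₁, V a ⊆ V₁ a) ∧
    Loc I₁ V₁ (σ + σ') ∧ ∃ t : TyD ι H, t.φ + t.ψ ≤ σ' ∧ IsTy e I₁ V₁ t ∧
    (∀ a ∈ I₁, Disjoint (t.Φ a) (Y a) ∧ ∀ x ∈ t.Ψ a, x ∈ V a → x ∈ Y a) ∧
    ((∀ a ∈ I₁, t.Ψ a ⊆ Y a) ∨ (∀ a ∈ I₁, ¬ t.Ψ a ⊆ Y a)) := by
  obtain ⟨σ', hσ⟩ := hL σ
  refine ⟨σ', fun M => ?_⟩
  obtain ⟨M', hM'⟩ := hσ (2 * M)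
  refine ⟨M', ?_⟩
  intro ι H _ _ _ e N hS hN I V Y hV hY hI
  set A : ι → Finset ι := fun a => (V a).erase a \ Y a with hA
  have hVu : ∀ a ∈ I, Vu A Y a = V a := by
    intro a ha
    unfold Vu
    ext x
    rw [Finset.mem_insert, Finset.mem_union, hA]
    simp only [Finset.mem_sdiff, Finset.mem_erase]
    constructor
    · rintro (rfl | h | h)
      · exact hV.self _ ha
      · exact h.1.2
      · exact (hY a ha).1 h
    · intro hx
      by_cases hxa : x = a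
      · exact Or.inl hxa
      · by_cases hxY : x ∈ Y a
        · exact Or.inr (Or.inr hxY)
        · exact Or.inr (Or.inl ⟨⟨hxa, hx⟩, hxY⟩)
  obtain ⟨I₁, hI₁, hc, t, hts, ht, hcomp, hloc⟩ := hM' ι H e N hS hN I A Y (hV.congr hVu) (by
    intro a ha
    refine ⟨?_, (hY a ha).2, ?_⟩
    · rw [hA]
      simp only [Finset.mem_sdiff, Finset.mem_erase]
      rintro ⟨⟨h, -⟩, -⟩
      exact h rfl
    · exact Finset.sdiff_disjoint) hI
  have hmain : ∀ I₂ ⊆ I₁, (∀ a ∈ I₂, V a ⊆ Vt (Vu A Y) t a) ∧ Loc I₂ (Vt (Vu A Y) t) (σ + σ') ∧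
      t.φ + t.ψ ≤ σ' ∧ IsTy e I₂ (Vt (Vu A Y) t) t ∧
      (∀ a ∈ I₂, Disjoint (t.Φ a) (Y a) ∧ ∀ x ∈ t.Ψ a, x ∈ V a → x ∈ Y a) := by
    intro I₂ hI₂
    refine ⟨?_, hloc.mono hI₂ le_rfl, hts, ht.mono hI₂ fun a _ => Finset.Subset.refl _, ?_⟩
    · intro a ha
      unfold Vt
      rw [hVu a (hI₁ (hI₂ ha))]
      exact Finset.subset_union_left
    · intro a ha
      refine ⟨(hcomp a (hI₂ ha)).1, ?_⟩
      intro x hx hxV
      by_contra hxY
      have h1 : x ∈ A a := by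
        rw [hA]
        simp only [Finset.mem_sdiff, Finset.mem_erase]
        refine ⟨⟨?_, hxV⟩, hxY⟩
        rintro rfl
        exact ht.nΨ _ (hI₂ ha) hx
      exact (Finset.disjoint_left.mp (hcomp a (hI₂ ha)).2) hx h1
  classical
  rcases half I₁ (fun a => t.Ψ a ⊆ Y a) M hc with h | h
  · obtain ⟨m1, m2, m3, m4, m5⟩ := hmain (I₁.filter fun a => t.Ψ a ⊆ Y a) (Finset.filter_subset _ _)
    exact ⟨_, (Finset.filter_subset _ _).trans hI₁, h, _, m1, m2, t, m3, m4, m5,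
      Or.inl fun a ha => (Finset.mem_filter.mp ha).2⟩
  · obtain ⟨m1, m2, m3, m4, m5⟩ := hmain (I₁.filter fun a => ¬ t.Ψ a ⊆ Y a)
      (Finset.filter_subset _ _)
    exact ⟨_, (Finset.filter_subset _ _).trans hI₁, h, _, m1, m2, t, m3, m4, m5,
      Or.inr fun a ha => (Finset.mem_filter.mp ha).2⟩

/-- A good type. -/
def Good {ι H : Type} [AddCommGroup H] (e : ι → H) (I : Finset ι) (V Y : ι → Finset ι)
    (σ M : ℕ) : Prop :=
  ∃ I₁ ⊆ I, M ≤ I₁.card ∧ ∃ V₁ : ι → Finset ι, (∀ a ∈ I₁, V a ⊆ V₁ a) ∧ Loc I₁ V₁ σ ∧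
    ∃ t : TyD ι H, IsTy e I₁ V₁ t ∧ ∀ a ∈ I₁, t.Ψ a ⊆ Y a ∧ Disjoint (t.Φ a) (Y a)

/-- A chain of bad types. -/
def Chn {ι H : Type} [AddCommGroup H] (e : ι → H) (I : Finset ι) (V Y : ι → Finset ι)
    (s₁ r σ M : ℕ) : Prop :=
  ∃ I₁ ⊆ I, M ≤ I₁.card ∧ ∃ V₁ : ι → Finset ι, (∀ a ∈ I₁, V a ⊆ V₁ a) ∧ Loc I₁ V₁ σ ∧
    ∃ T : ℕ → TyD ι H, (∀ j < r, IsTy e I₁ V₁ (T j)) ∧
      (∀ j < r, ∀ a ∈ I₁, Disjoint ((T j).Φ a) (Y a) ∧ ¬ (T j).Ψ a ⊆ Y a) ∧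
      (∀ j < r, ∀ j' < j, TLt I₁ (T j) (T j')) ∧ (T 0).φ + (T 0).ψ ≤ s₁

theorem Good.mono {ι H : Type} [AddCommGroup H] {e : ι → H} {I : Finset ι} {V Y : ι → Finset ι}
    {σ σ' M M' : ℕ} (h : Good e I V Y σ M) (hσ : σ ≤ σ') (hM : M' ≤ M) :
    Good e I V Y σ' M' := by
  obtain ⟨I₁, h1, h2, V₁, h3, h4, h5⟩ := h
  exact ⟨I₁, h1, hM.trans h2, V₁, h3, h4.mono (Finset.Subset.refl _) hσ, h5⟩

theorem chain (hL : S_lcl) (hC : S_conf) (s : ℕ) : ∃ s₁ : ℕ, ∀ r : ℕ, ∃ σ : ℕ, ∀ M : ℕ,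
    ∃ M' : ℕ, ∀ (ι H : Type) [Fintype ι] [DecidableEq ι] [AddCommGroup H] (e : ι → H) (N : ℕ),
    Sys e N → N ≤ 2 ^ Fintype.card ι → ∀ (I : Finset ι) (V Y : ι → Finset ι), Loc I V s →
    (∀ a ∈ I, Y a ⊆ V a ∧ a ∉ Y a) → M' ≤ I.card →
    Good e I V Y σ M ∨ Chn e I V Y s₁ (r + 1) σ M := by
  obtain ⟨s₁, hs₁⟩ := one hL s
  refine ⟨s₁, fun r => ?_⟩
  induction r with
  | zero =>
    refine ⟨s + s₁, fun M => ?_⟩
    obtain ⟨M', hM'⟩ := hs₁ M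
    refine ⟨M', ?_⟩
    intro ι H _ _ _ e N hS hN I V Y hV hY hI
    obtain ⟨I₁, hI₁, hc, V₁, hV₁, hloc, t, hts, ht, hcomp, hor⟩ := hM' ι H e N hS hN I V Y hV hY hI
    rcases hor with h | h
    · exact Or.inl ⟨I₁, hI₁, hc, V₁, hV₁, hloc, t, ht, fun a ha => ⟨h a ha, (hcomp a ha).1⟩⟩
    · refine Or.inr ⟨I₁, hI₁, hc, V₁, hV₁, hloc, fun _ => t, fun _ _ => ht,
        fun _ _ a ha => ⟨(hcomp a ha).1, h a ha⟩, ?_, hts⟩
      intro j hj j' hj'
      omega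
  | succ r ih =>
    obtain ⟨σ, hσ⟩ := ih
    obtain ⟨σ', hσ'⟩ := one hL σ
    refine ⟨σ + σ', fun M => ?_⟩
    obtain ⟨M₁, hM₁⟩ := hσ' (max M 2)
    obtain ⟨M₂, hM₂⟩ := hσ (max M M₁)
    refine ⟨M₂, ?_⟩
    intro ι H _ _ _ e N hS hN I V Y hV hY hI
    rcases hM₂ ι H e N hS hN I V Y hV hY hI with h | h
    · exact Or.inl (h.mono (Nat.le_add_right _ _) (le_max_left _ _))
    · obtain ⟨I₁, hI₁, hc, V₁, hV₁, hloc, T, hT, hTY, hlt, h0⟩ := h
      have hY₁ : ∀ a ∈ I₁, Y a ⊆ V₁ a ∧ a ∉ Y a := fun a ha =>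
        ⟨(hY a (hI₁ ha)).1.trans (hV₁ a ha), (hY a (hI₁ ha)).2⟩
      obtain ⟨I₂, hI₂, hc₂, V₂, hV₂, hloc₂, t, hts, ht, hcomp, hor⟩ :=
        hM₁ ι H e N hS hN I₁ V₁ Y hloc hY₁ ((le_max_right _ _).trans hc)
      have hc2 : 2 ≤ I₂.card := (le_max_right _ _).trans hc₂
      have hcM : M ≤ I₂.card := (le_max_left _ _).trans hc₂
      have hVV : ∀ a ∈ I₂, V a ⊆ V₂ a := fun a ha => (hV₁ a (hI₂ ha)).trans (hV₂ a ha)
      rcases hor with h | h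
      · exact Or.inl ⟨I₂, hI₂.trans hI₁, hcM, V₂, hVV, hloc₂, t, ht,
          fun a ha => ⟨h a ha, (hcomp a ha).1⟩⟩
      · right
        set T' : ℕ → TyD ι H := fun j => if j = r + 1 then t else T j with hT'
        have e1 : T' (r + 1) = t := by rw [hT']; simp
        have e2 : ∀ j, j < r + 1 → T' j = T j := by
          intro j hj
          rw [hT']
          simp only
          rw [if_neg (by omega)]
        have hty : ∀ j < r + 1, IsTy e I₂ V₂ (T j) := fun j hj => (hT j hj).mono hI₂ hV₂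
        refine ⟨I₂, hI₂.trans hI₁, hcM, V₂, hVV, hloc₂, T', ?_, ?_, ?_, ?_⟩
        · intro j hj
          by_cases hj' : j = r + 1
          · rw [hj', e1]; exact ht
          · rw [e2 j (by omega)]; exact hty j (by omega)
        · intro j hj a ha
          by_cases hj' : j = r + 1
          · rw [hj', e1]; exact ⟨(hcomp a ha).1, h a ha⟩
          · rw [e2 j (by omega)]; exact hTY j (by omega) a (hI₂ ha)
        · intro j hj j' hj'
          by_cases hj1 : j = r + 1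
          · rw [hj1, e1, e2 j' (by omega)]
            have hj'r : j' < r + 1 := by omega
            have hdis : ∀ a ∈ I₂, Disjoint (t.Ψ a) ((T j').Φ a) := by
              intro a ha
              rw [Finset.disjoint_left]
              intro x hx hx'
              have h1 := (hcomp a ha).2 x hx ((hT j' hj'r).sΦ a (hI₂ ha) hx')
              exact (Finset.disjoint_left.mp (hTY j' hj'r a (hI₂ ha)).1) hx' h1
            rcases hC ι H e N hS I₂ V₂ _ hloc₂ hc2 t (T j') ht (hty j' hj'r) hdis with h1 | h1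
            · exfalso
              obtain ⟨a, ha⟩ := Finset.card_pos.mp (show 0 < I₂.card by omega)
              apply (hTY j' hj'r a (hI₂ ha)).2
              intro x hx
              refine (hcomp a ha).2 x ?_ ((hT j' hj'r).sΨ a (hI₂ ha) hx)
              rw [(h1 a ha).2]
              exact hx
            · exact fun a ha => ⟨hdis a ha, h1 a ha⟩
          · rw [e2 j (by omega), e2 j' (by omega)]
            exact (hlt j (by omega) j' hj').mono hI₂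
        · rw [e2 0 (by omega)]
          exact h0

end JDesc

open JDesc in
theorem prfDesc (hL : S_lcl) (hC : S_conf) (hT : S_tot) : S_desc := by
  intro s
  obtain ⟨s₁, hs₁⟩ := chain hL hC s
  obtain ⟨σ, hσ⟩ := hs₁ (2 ^ (s₁ + 1))
  refine ⟨σ, fun M => ?_⟩
  obtain ⟨M₁, hM₁⟩ := hT σ (1 / (4 * 2 ^ (s₁ + 1))) (by positivity)
  obtain ⟨M', hM'⟩ := hσ (max M M₁)
  refine ⟨M', ?_⟩
  intro ι H _ _ _ e N hS hN I V Y hV hY hI
  rcases hM' ι H e N hS hN I V Y hV hY hI with h | h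
  · exact h.mono le_rfl (le_max_left _ _)
  · exfalso
    obtain ⟨I₁, hI₁, hc, V₁, hV₁, hloc, T, hTy, hTY, hlt, h0⟩ := h
    have h1 := hM₁ ι H e N hS I₁ V₁ hloc ((le_max_right _ _).trans hc) (2 ^ (s₁ + 1))
      (fun j => T (j + 1)) (fun j hj => hTy (j + 1) (by omega)) (by
        intro j hj j' hj' hne
        rcases Nat.lt_or_gt_of_ne hne with h2 | h2
        · exact Or.inr (hlt (j' + 1) (by omega) (j + 1) (by omega))
        · exact Or.inl (hlt (j + 1) (by omega) (j' + 1) (by omega)))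
      (fun _ => 1 / 2 ^ (1 + (T 0).φ + (T 0).ψ)) (by
        intro j hj
        exact Or.inr ⟨T 0, hTy 0 (by positivity), hlt (j + 1) (by omega) 0 (by omega), le_rfl⟩)
    rw [Finset.sum_const, Finset.card_range, nsmul_eq_mul] at h1
    have h2 : (1 : ℝ) ≤ ((2 ^ (s₁ + 1) : ℕ) : ℝ) * (1 / 2 ^ (1 + (T 0).φ + (T 0).ψ)) := by
      rw [mul_one_div, le_div_iff₀ (by positivity), one_mul]
      push_cast
      exact pow_le_pow_right₀ (by norm_num) (by omega)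
    have h3 : ((2 ^ (s₁ + 1) : ℕ) : ℝ) * (1 / (4 * 2 ^ (s₁ + 1))) = 1 / 4 := by
      push_cast
      field_simp
    rw [h3] at h1
    have h4 : (0 : ℝ) < 2 ^ Fintype.card ι := by positivity
    have h5 : (N : ℝ) ≤ 2 ^ Fintype.card ι := by exact_mod_cast hN
    nlinarith

end Pool.Agent.Work.MP_2a6590_nt.H97B
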