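import Pool.Agent.Work.MP_2a6590_nt.H97B.Tools

/-!
# MP_2a6590_nt, block B: the weighted double count
-/

namespace Pool.Agent.Work.MP_2a6590_nt.H97B

open Finset Pool.Agent.Work.MP_2a6590_nt.H97

namespace JWt

variable {ι H : Type} [Fintype ι] [DecidableEq ι] [AddCommGroup H] {e : ι → H} {N : ℕ}
  {I : Finset ι} {A C : ι → Finset ι}

omit [Fintype ι] in
theorem mem_XX {S : Finset ι} {a : ι} :
    a ∈ XX I A C S ↔ a ∈ I ∧ a ∈ S ∧ Disjoint (A a) S ∧ C a ⊆ S := by
  unfold XX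
  rw [Finset.mem_filter]

theorem mem_Prs {p : Finset ι × ι} : p ∈ Prs I A C ↔ p.2 ∈ XX I A C p.1 := by
  unfold Prs
  rw [Finset.mem_filter]
  exact ⟨fun h => h.2, fun h => ⟨Finset.mem_univ _, h⟩⟩

theorem mem_Tri {q : Finset ι × ι × ι} :
    q ∈ Tri I A C ↔ q.2.1 ∈ XX I A C q.1 ∧ q.2.2 ∈ XX I A C q.1ᶜ := by
  unfold Tri
  rw [Finset.mem_filter]
  exact ⟨fun h => h.2, fun h => ⟨Finset.mem_univ _, h⟩⟩

theorem mem_EE {S : Finset ι} {a c : ι} :
    c ∈ EE e I A C S a ↔ c ∈ I ∧ c ≠ a ∧ ∃ p ∈ Fam e a c, S ∈ Cmp a c p ∧ Disjoint p.1 (A c) ∧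
      Disjoint p.2 (C c) := by
  classical
  unfold EE
  rw [Finset.mem_filter]

theorem mem_Cmp {S : Finset ι} {a c : ι} {p : Finset ι × Finset ι} (h : S ∈ Cmp a c p) :
    (a ∈ S ∧ p.2 ⊆ S) ∧ (c ∉ S ∧ Disjoint p.1 S) := by
  unfold Cmp at h
  rw [Finset.mem_Icc] at h
  obtain ⟨h1, h2⟩ := h
  have h1' : insert a p.2 ⊆ S := h1
  have h2' : S ⊆ (insert c p.1)ᶜ := h2
  refine ⟨⟨h1' (Finset.mem_insert_self _ _), (Finset.subset_insert _ _).trans h1'⟩, ?_, ?_⟩
  · intro hc
    have := h2' hc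
    rw [Finset.mem_compl] at this
    exact this (Finset.mem_insert_self _ _)
  · rw [Finset.disjoint_left]
    intro x hx hxS
    have := h2' hxS
    rw [Finset.mem_compl] at this
    exact this (Finset.mem_insert_of_mem hx)

/-- Duality. -/
theorem dual (hS : Sys e N) {S : Finset ι} {a b : ι} (ha : a ∈ XX I A C S)
    (hb : b ∈ XX I A C Sᶜ) (h1 : MM e (sg e S + e a - e b)) (h2 : MM e (sg e Sᶜ + e b - e a)) :
    b ∈ EE e I A C S a := by
  classical
  obtain ⟨haI, haS, -, -⟩ := mem_XX.mp ha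
  obtain ⟨hbI, hbS, hAb, hCb⟩ := mem_XX.mp hb
  rw [Finset.mem_compl] at hbS
  have hab : a ≠ b := by
    rintro rfl
    exact hbS haS
  obtain ⟨m, hm⟩ := h1
  obtain ⟨m', hm'⟩ := h2
  have h4 := hS.uni (m + m') (by
    rw [val_add, hm, hm', ← sg_compl e S]
    abel)
  have hle : ∀ j, m j ≤ 1 := by
    intro j
    have := h4 j
    rw [Pi.add_apply] at this
    omega
  set S' := univ.filter fun j => m j = 1 with hS'
  have hind : m = ind S' := by
    funext j
    have h5 := hle j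
    unfold ind
    rw [hS']
    simp only [Finset.mem_filter, Finset.mem_univ, true_and]
    split_ifs with h6
    · exact h6
    · omega
  have hsg : sg e S' = sg e S + e a - e b := by
    rw [← val_ind, ← hind, hm]
  have hcard : S'.card = S.card := hS.cardS (i := b) (j := a) (by rw [hsg]; abel)
  have hHS : S ∈ HS e a b := by
    rw [mem_HS, mem_Hs]
    exact ⟨haS, hbS, S', hcard, hsg⟩
  obtain ⟨p, hp, hSp⟩ := Finset.mem_biUnion.mp (HS_sub hS.vd hab hHS)
  obtain ⟨⟨-, hp2⟩, -, hp1⟩ := mem_Cmp hSp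
  rw [mem_EE]
  refine ⟨hbI, hab.symm, p, hp, hSp, ?_, ?_⟩
  · rw [Finset.disjoint_left]
    intro x hx hxA
    have h6 : x ∉ S := Finset.disjoint_left.mp hp1 hx
    exact Finset.disjoint_left.mp hAb hxA (Finset.mem_compl.mpr h6)
  · rw [Finset.disjoint_left]
    intro x hx hxC
    exact (Finset.mem_compl.mp (hCb hxC)) (hp2 hx)

/-- The exchange behind two pairs with the same value. -/
theorem exch (hS : Sys e N) {S T : Finset ι} {a c : ι} (ha : a ∈ XX I A C S)
    (hc : c ∈ XX I A C T) (hca : c ≠ a) (h : sg e T + e c = sg e S + e a) :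
    c ∈ EE e I A C S a := by
  classical
  obtain ⟨haI, haS, -, -⟩ := mem_XX.mp ha
  obtain ⟨hcI, hcT, hAc, hCc⟩ := mem_XX.mp hc
  have hcS : c ∉ S := by
    intro hcS
    have h1 : val e (ind (S.erase c) + un a) = sg e T := by
      rw [val_add, val_ind, val_un]
      have h2 := sg_erase e hcS
      have h3 : sg e T = sg e S + e a - e c := by rw [← h]; abel
      rw [h3, h2]
      abel
    have h2 := hS.le_one h1 a
    rw [Pi.add_apply, ind_mem (Finset.mem_erase.mpr ⟨hca.symm, haS⟩), un_self] at h2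
    omega
  have hcard : T.card = S.card := hS.cardS h
  have hT : sg e T = sg e S + e a - e c := by rw [← h]; abel
  have hHS : S ∈ HS e a c := by
    rw [mem_HS, mem_Hs]
    exact ⟨haS, hcS, T, hcard, hT⟩
  obtain ⟨p, hp, hSp⟩ := Finset.mem_biUnion.mp (HS_sub hS.vd hca.symm hHS)
  obtain ⟨⟨-, hp2⟩, -, hp1⟩ := mem_Cmp hSp
  obtain ⟨dp, ⟨hap1, hcp1, hap2, hcp2⟩, -, ep⟩ := mem_Fam.mp hp
  have hsub : p.2 ⊆ S.erase a := by
    intro x hx
    rw [Finset.mem_erase]
    refine ⟨?_, hp2 hx⟩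
    rintro rfl
    exact hap2 hx
  have d1 : Disjoint p.1 (S.erase a \ p.2) := by
    rw [Finset.disjoint_left]
    intro x hx hx'
    rw [Finset.mem_sdiff, Finset.mem_erase] at hx'
    exact Finset.disjoint_left.mp hp1 hx hx'.1.2
  have d2 : c ∉ p.1 ∪ (S.erase a \ p.2) := by
    rw [Finset.mem_union, Finset.mem_sdiff, Finset.mem_erase]
    rintro (h1 | h1)
    · exact hcp1 h1
    · exact hcS h1.1.2
  have hTT : T = insert c (p.1 ∪ (S.erase a \ p.2)) := by
    apply hS.inj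
    rw [sg_insert e d2, sg_union e d1, hT, sg_erase e haS, sg_sdiff e hsub]
    have h5 : sg e p.1 = 2 • e a + sg e p.2 - 2 • e c := by rw [ep]; abel
    rw [h5, two_smul, two_smul]
    abel
  rw [mem_EE]
  refine ⟨hcI, hca, p, hp, hSp, ?_, ?_⟩
  · rw [Finset.disjoint_left]
    intro x hx hxA
    refine Finset.disjoint_left.mp hAc hxA ?_
    rw [hTT]
    exact Finset.mem_insert_of_mem (Finset.mem_union_left _ hx)
  · rw [Finset.disjoint_left]
    intro x hx hxC
    have h6 := hCc hxC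
    rw [hTT, Finset.mem_insert, Finset.mem_union, Finset.mem_sdiff] at h6
    rcases h6 with rfl | h6 | h6
    · exact hcp2 hx
    · exact Finset.disjoint_left.mp dp h6 hx
    · exact h6.2 hx

open Classical in
/-- The fibre of a pair. -/
noncomputable def RR (e : ι → H) (I : Finset ι) (A C : ι → Finset ι) (p : Finset ι × ι) :
    Finset (Finset ι × ι) :=
  (Prs I A C).filter fun q => sg e q.1 + e q.2 = sg e p.1 + e p.2

theorem mem_RR {p q : Finset ι × ι} : q ∈ RR e I A C p ↔ q.2 ∈ XX I A C q.1 ∧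
    sg e q.1 + e q.2 = sg e p.1 + e p.2 := by
  classical
  unfold RR
  rw [Finset.mem_filter, mem_Prs]

theorem RR_card (hS : Sys e N) {p : Finset ι × ι} (hp : p.2 ∈ XX I A C p.1) :
    (RR e I A C p).card ≤ 1 + (EE e I A C p.1 p.2).card := by
  classical
  have hmaps : ∀ q ∈ RR e I A C p, q.2 ∈ insert p.2 (EE e I A C p.1 p.2) := by
    intro q hq
    rw [mem_RR] at hq
    rw [Finset.mem_insert]
    by_cases h : q.2 = p.2
    · exact Or.inl h
    · exact Or.inr (exch hS hp hq.1 h hq.2)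
  have hinj : Set.InjOn (fun q : Finset ι × ι => q.2) (RR e I A C p : Set _) := by
    intro q hq q' hq' h
    rw [Finset.mem_coe, mem_RR] at hq hq'
    have e' : q.2 = q'.2 := h
    refine Prod.ext (hS.inj ?_) e'
    have h1 := hq.2.trans hq'.2.symm
    rw [e'] at h1
    exact add_right_cancel h1
  have h1 := Finset.card_le_card_of_injOn _ hmaps hinj
  have h2 := Finset.card_insert_le p.2 (EE e I A C p.1 p.2)
  omega

theorem RR_pos {p : Finset ι × ι} (hp : p.2 ∈ XX I A C p.1) : 0 < (RR e I A C p).card :=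
  Finset.card_pos.mpr ⟨p, mem_RR.mpr ⟨hp, rfl⟩⟩

open Classical in
/-- The weight of a triple. -/
noncomputable def ff (e : ι → H) (I : Finset ι) (A C : ι → Finset ι) (p : Finset ι × ι) (b : ι) :
    ℝ :=
  if MM e (sg e p.1 + e p.2 - e b) then 0 else 1 / ((RR e I A C p).card : ℝ)

theorem ff_nonneg (p : Finset ι × ι) (b : ι) : 0 ≤ ff e I A C p b := by
  classical
  unfold ff
  split_ifs
  · exact le_refl _
  · positivity

/-- The inequality for one element. -/
theorem count_b (hS : Sys e N) (b : ι) :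
    (2 : ℝ) ^ Fintype.card ι / 2 + ∑ p ∈ Prs I A C, ff e I A C p b ≤ N := by
  classical
  set G : Finset ι × ι → H := fun p => sg e p.1 + e p.2 with hG
  set F := (Prs I A C).filter fun p => ¬ MM e (G p - e b) with hF
  have h1 := hS.base b (F.image G) (by
    intro w hw
    rw [Finset.mem_image] at hw
    obtain ⟨p, hp, rfl⟩ := hw
    rw [hF, Finset.mem_filter, mem_Prs] at hp
    refine ⟨⟨ind p.1 + un p.2, ?_, p.2, ?_⟩, hp.2⟩
    · rw [val_add, val_ind, val_un]
    · rw [Pi.add_apply, ind_mem (mem_XX.mp hp.1).2.1, un_self])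
  have h2 : ∑ p ∈ Prs I A C, ff e I A C p b ≤ ((F.image G).card : ℝ) := by
    have h3 : ∑ p ∈ Prs I A C, ff e I A C p b = ∑ p ∈ F, 1 / ((RR e I A C p).card : ℝ) := by
      rw [hF, Finset.sum_filter]
      refine Finset.sum_congr rfl fun p _ => ?_
      unfold ff
      by_cases h : MM e (sg e p.1 + e p.2 - e b)
      · rw [if_pos h, if_neg]
        intro h'
        exact h' h
      · rw [if_neg h, if_pos]
        exact h
    rw [h3, ← Finset.sum_fiberwise_of_maps_to (t := F.image G) (g := G)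
      (fun p hp => Finset.mem_image_of_mem _ hp)]
    have h4 : ∀ z ∈ F.image G, ∑ p ∈ F with G p = z, 1 / ((RR e I A C p).card : ℝ) ≤ 1 := by
      intro z hz
      rw [Finset.mem_image] at hz
      obtain ⟨q, hq, rfl⟩ := hz
      have hq' : q.2 ∈ XX I A C q.1 := by
        rw [hF, Finset.mem_filter, mem_Prs] at hq
        exact hq.1
      have h5 : ∀ p ∈ F.filter (fun p => G p = G q),
          1 / ((RR e I A C p).card : ℝ) = 1 / ((RR e I A C q).card : ℝ) := by
        intro p hp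
        rw [Finset.mem_filter] at hp
        have : RR e I A C p = RR e I A C q := by
          ext x
          rw [mem_RR, mem_RR]
          have h6 : sg e p.1 + e p.2 = sg e q.1 + e q.2 := hp.2
          rw [h6]
        rw [this]
      rw [Finset.sum_congr rfl h5, Finset.sum_const, nsmul_eq_mul]
      have h6 : (F.filter (fun p => G p = G q)).card ≤ (RR e I A C q).card := by
        refine Finset.card_le_card fun p hp => ?_
        rw [Finset.mem_filter, hF, Finset.mem_filter, mem_Prs] at hp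
        rw [mem_RR]
        exact ⟨hp.1.1, hp.2⟩
      have h7 : (0 : ℝ) < (RR e I A C q).card := by exact_mod_cast RR_pos hq'
      rw [mul_one_div, div_le_one h7]
      exact_mod_cast h6
    refine (Finset.sum_le_sum h4).trans ?_
    rw [Finset.sum_const, nsmul_eq_mul, mul_one]
  have h8 : ((2 ^ (Fintype.card ι - 1) + (F.image G).card : ℕ) : ℝ) ≤ (N : ℝ) := by
    exact_mod_cast h1
  push_cast at h8
  have h9 : (2 : ℝ) ^ Fintype.card ι / 2 ≤ 2 ^ (Fintype.card ι - 1) := by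
    rcases Nat.eq_zero_or_pos (Fintype.card ι) with h0 | h0
    · rw [h0]; norm_num
    · obtain ⟨k, hk⟩ : ∃ k, Fintype.card ι = k + 1 := ⟨Fintype.card ι - 1, by omega⟩
      rw [hk, pow_succ, Nat.add_sub_cancel]
      simp
  linarith

/-- A sum over triples is at most the sum over all pairs and all elements of `I`. -/
theorem sum_Tri_le (g : Finset ι × ι → ι → ℝ) (hg : ∀ p b, 0 ≤ g p b) :
    ∑ q ∈ Tri I A C, g (q.1, q.2.1) q.2.2 ≤ ∑ b ∈ I, ∑ p ∈ Prs I A C, g p b := by
  classical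
  rw [Finset.sum_comm, ← Finset.sum_product']
  have hinj : Set.InjOn (fun q : Finset ι × ι × ι => ((q.1, q.2.1), q.2.2))
      (Tri I A C : Set (Finset ι × ι × ι)) := by
    intro q _ q' _ h
    simp only [Prod.mk.injEq] at h
    exact Prod.ext h.1.1 (Prod.ext h.1.2 h.2)
  have h1 : ∑ q ∈ Tri I A C, g (q.1, q.2.1) q.2.2 =
      ∑ x ∈ (Tri I A C).image (fun q : Finset ι × ι × ι => ((q.1, q.2.1), q.2.2)),
        g x.1 x.2 := by
    rw [Finset.sum_image hinj]
  rw [h1]
  refine Finset.sum_le_sum_of_subset_of_nonneg ?_ fun x _ _ => hg _ _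
  intro x hx
  rw [Finset.mem_image] at hx
  obtain ⟨q, hq, rfl⟩ := hx
  rw [mem_Tri] at hq
  rw [Finset.mem_product, mem_Prs]
  exact ⟨hq.1, (mem_XX.mp hq.2).1⟩

/-- The involution. -/
theorem sum_inv (g : Finset ι × ι × ι → ℝ) :
    ∑ q ∈ Tri I A C, g (q.1ᶜ, q.2.2, q.2.1) = ∑ q ∈ Tri I A C, g q := by
  classical
  refine Finset.sum_nbij' (fun q => (q.1ᶜ, q.2.2, q.2.1)) (fun q => (q.1ᶜ, q.2.2, q.2.1))
    ?_ ?_ ?_ ?_ ?_
  · intro q hq
    rw [mem_Tri] at hq ⊢
    refine ⟨hq.2, ?_⟩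
    change q.2.1 ∈ XX I A C q.1ᶜᶜ
    rw [compl_compl]
    exact hq.1
  · intro q hq
    rw [mem_Tri] at hq ⊢
    refine ⟨hq.2, ?_⟩
    change q.2.1 ∈ XX I A C q.1ᶜᶜ
    rw [compl_compl]
    exact hq.1
  · intro q _
    simp
  · intro q _
    simp
  · intro q _
    rfl

theorem inv_lower {x W : ℝ} (hx : 0 < x) (hW : 0 < W) : 2 / W - x / W ^ 2 ≤ 1 / x := by
  have h : 1 / x - (2 / W - x / W ^ 2) = (W - x) ^ 2 / (x * W ^ 2) := by
    field_simp
    ring
  have h2 : 0 ≤ (W - x) ^ 2 / (x * W ^ 2) := by positivity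
  linarith

end JWt

open JWt in
/-- The weighted double count. -/
theorem prfWt : S_wt := by
  intro ι H _ _ _ e N hS I A C _ W E hW hE
  classical
  -- the sum of the weights
  have h1 : ∑ q ∈ Tri I A C, ff e I A C (q.1, q.2.1) q.2.2 ≤
      I.card * ((N : ℝ) - 2 ^ Fintype.card ι / 2) := by
    refine (sum_Tri_le (fun p b => ff e I A C p b) fun p b => ff_nonneg p b).trans ?_
    have h2 : ∀ b ∈ I, ∑ p ∈ Prs I A C, ff e I A C p b ≤ (N : ℝ) - 2 ^ Fintype.card ι / 2 := by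
      intro b _
      have := count_b (I := I) (A := A) (C := C) hS b
      linarith
    refine (Finset.sum_le_sum h2).trans ?_
    rw [Finset.sum_const, nsmul_eq_mul]
  have h2 := sum_inv (I := I) (A := A) (C := C) (fun q => ff e I A C (q.1, q.2.1) q.2.2)
  -- the lower bound for a triple
  have h3 : ∀ q ∈ Tri I A C,
      2 / W * (if q.2.2 ∈ EE e I A C q.1 q.2.1 then 0 else 1) -
        (2 + ((EE e I A C q.1 q.2.1).card : ℝ) + (EE e I A C q.1ᶜ q.2.2).card) / W ^ 2 ≤
      ff e I A C (q.1, q.2.1) q.2.2 + ff e I A C (q.1ᶜ, q.2.2) q.2.1 := by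
    intro q hq
    rw [mem_Tri] at hq
    have n1 : 0 ≤ ff e I A C (q.1, q.2.1) q.2.2 := ff_nonneg _ _
    have n2 : 0 ≤ ff e I A C (q.1ᶜ, q.2.2) q.2.1 := ff_nonneg _ _
    set x1 : ℝ := ((EE e I A C q.1 q.2.1).card : ℝ) with hx1
    set x2 : ℝ := ((EE e I A C q.1ᶜ q.2.2).card : ℝ) with hx2
    have p1 : 0 ≤ x1 := Nat.cast_nonneg _
    have p2 : 0 ≤ x2 := Nat.cast_nonneg _
    by_cases hb : q.2.2 ∈ EE e I A C q.1 q.2.1
    · rw [if_pos hb, mul_zero]
      have : 0 ≤ (2 + x1 + x2) / W ^ 2 := by positivity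
      linarith
    · rw [if_neg hb, mul_one]
      refine (inv_lower (show 0 < 2 + x1 + x2 by linarith) hW).trans ?_
      by_cases hm : MM e (sg e q.1 + e q.2.1 - e q.2.2)
      · have hm' : ¬ MM e (sg e q.1ᶜ + e q.2.2 - e q.2.1) := fun h => hb (dual hS hq.1 hq.2 hm h)
        have h4 : ff e I A C (q.1ᶜ, q.2.2) q.2.1 =
            1 / ((RR e I A C (q.1ᶜ, q.2.2)).card : ℝ) := by
          unfold ff
          rw [if_neg hm']
        have h5 : ((RR e I A C (q.1ᶜ, q.2.2)).card : ℝ) ≤ 1 + x2 := by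
          have := RR_card hS (p := (q.1ᶜ, q.2.2)) hq.2
          rw [hx2]
          exact_mod_cast this
        have h6 : (0 : ℝ) < ((RR e I A C (q.1ᶜ, q.2.2)).card : ℝ) := by
          exact_mod_cast RR_pos (p := (q.1ᶜ, q.2.2)) hq.2
        have h7 : 1 / (2 + x1 + x2) ≤ 1 / ((RR e I A C (q.1ᶜ, q.2.2)).card : ℝ) :=
          one_div_le_one_div_of_le h6 (by linarith)
        rw [h4]
        linarith
      · have h4 : ff e I A C (q.1, q.2.1) q.2.2 =
            1 / ((RR e I A C (q.1, q.2.1)).card : ℝ) := by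
          unfold ff
          rw [if_neg hm]
        have h5 : ((RR e I A C (q.1, q.2.1)).card : ℝ) ≤ 1 + x1 := by
          have := RR_card hS (p := (q.1, q.2.1)) hq.1
          rw [hx1]
          exact_mod_cast this
        have h6 : (0 : ℝ) < ((RR e I A C (q.1, q.2.1)).card : ℝ) := by
          exact_mod_cast RR_pos (p := (q.1, q.2.1)) hq.1
        have h7 : 1 / (2 + x1 + x2) ≤ 1 / ((RR e I A C (q.1, q.2.1)).card : ℝ) :=
          one_div_le_one_div_of_le h6 (by linarith)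
        rw [h4]
        linarith
  have h4 := Finset.sum_le_sum h3
  rw [Finset.sum_add_distrib] at h4
  -- the number of bad triples
  have h5 : ∑ q ∈ Tri I A C, (if q.2.2 ∈ EE e I A C q.1 q.2.1 then (1 : ℝ) else 0) ≤ E := by
    refine le_trans ?_ hE
    refine (sum_Tri_le (fun p b => if b ∈ EE e I A C p.1 p.2 then (1 : ℝ) else 0) ?_).trans ?_
    · intro p b
      split_ifs <;> norm_num
    · rw [Finset.sum_comm]
      refine Finset.sum_le_sum fun p _ => ?_
      rw [Finset.sum_ite, Finset.sum_const_zero, add_zero, Finset.sum_const, nsmul_eq_mul, mul_one]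
      exact_mod_cast Finset.card_le_card fun x hx => (Finset.mem_filter.mp hx).2
  have h6 : ∑ q ∈ Tri I A C, ((EE e I A C q.1 q.2.1).card : ℝ) ≤ I.card * E := by
    refine (sum_Tri_le (fun p _ => ((EE e I A C p.1 p.2).card : ℝ))
      fun p _ => Nat.cast_nonneg _).trans ?_
    rw [Finset.sum_const, nsmul_eq_mul]
    exact mul_le_mul_of_nonneg_left hE (Nat.cast_nonneg _)
  have h7 := sum_inv (I := I) (A := A) (C := C)
    (fun q => ((EE e I A C q.1 q.2.1).card : ℝ))
  have h8 : ∑ q ∈ Tri I A C, (if q.2.2 ∈ EE e I A C q.1 q.2.1 then (0 : ℝ) else 1) =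
      (Tri I A C).card - ∑ q ∈ Tri I A C,
        (if q.2.2 ∈ EE e I A C q.1 q.2.1 then (1 : ℝ) else 0) := by
    rw [eq_sub_iff_add_eq, ← Finset.sum_add_distrib]
    rw [Finset.sum_congr rfl (g := fun _ => (1 : ℝ))]
    · rw [Finset.sum_const, nsmul_eq_mul, mul_one]
    · intro q _
      split_ifs <;> norm_num
  have h9 : ∑ q ∈ Tri I A C, (2 / W * (if q.2.2 ∈ EE e I A C q.1 q.2.1 then (0 : ℝ) else 1) -
        (2 + ((EE e I A C q.1 q.2.1).card : ℝ) + (EE e I A C q.1ᶜ q.2.2).card) / W ^ 2) =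
      2 / W * ((Tri I A C).card - ∑ q ∈ Tri I A C,
        (if q.2.2 ∈ EE e I A C q.1 q.2.1 then (1 : ℝ) else 0)) -
      (2 * (Tri I A C).card + ∑ q ∈ Tri I A C, ((EE e I A C q.1 q.2.1).card : ℝ) +
        ∑ q ∈ Tri I A C, ((EE e I A C q.1ᶜ q.2.2).card : ℝ)) / W ^ 2 := by
    rw [Finset.sum_sub_distrib, ← Finset.mul_sum, ← Finset.sum_div, h8,
      Finset.sum_add_distrib, Finset.sum_add_distrib, Finset.sum_const, nsmul_eq_mul]
    ring
  rw [h9] at h4
  have h2' : ∑ q ∈ Tri I A C, ff e I A C (q.1ᶜ, q.2.2) q.2.1 =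
      ∑ q ∈ Tri I A C, ff e I A C (q.1, q.2.1) q.2.2 := h2
  have h7' : ∑ q ∈ Tri I A C, ((EE e I A C q.1ᶜ q.2.2).card : ℝ) =
      ∑ q ∈ Tri I A C, ((EE e I A C q.1 q.2.1).card : ℝ) := h7
  rw [h2', h7'] at h4
  set s1 := ∑ q ∈ Tri I A C, ff e I A C (q.1, q.2.1) q.2.2 with hs1
  set s2 := ∑ q ∈ Tri I A C, (if q.2.2 ∈ EE e I A C q.1 q.2.1 then (1 : ℝ) else 0) with hs2
  set s3 := ∑ q ∈ Tri I A C, ((EE e I A C q.1 q.2.1).card : ℝ) with hs3
  set t : ℝ := ((Tri I A C).card : ℝ) with ht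
  have g1 : 2 * (t - E) / W ≤ 2 / W * (t - s2) := by
    rw [mul_div_right_comm]
    refine mul_le_mul_of_nonneg_left (by linarith) (by positivity)
  have g2 : (2 * t + s3 + s3) / W ^ 2 ≤ (2 * t + 2 * I.card * E) / W ^ 2 := by
    refine div_le_div_of_nonneg_right ?_ (by positivity)
    linarith
  linarith

end Pool.Agent.Work.MP_2a6590_nt.H97B
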